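import Pool.Agent.Q117.LF.Main3
import Pool.Agent.Q117.LF.T42

/-!
MP_d018b2_nt (uniform prime tuplets for the forms `q r_j + 1`): the order of magnitude of the conjecture, with a prime and a product of at most two primes at two
places and almost primes elsewhere, uniformly in the other coefficients up to `x`, also in the residue classes to smooth moduli up to a power of `x`.
-/

set_option autoImplicit false

namespace Pool.Agent.Results.MP_d018b2_nt.ChenInUniformTuples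

open Finset

/-- the number of the residue classes `q` mod `p` with `∏ (q r_j + 1) ≡ 0 (mod p)` -/
noncomputable def w {l : ℕ} (r : Fin l → ℕ) (p : ℕ) : ℕ := by
  classical
  exact ((range p).filter (fun q : ℕ => p ∣ ∏ j, (q * r j + 1))).card

/-- the singular product over the primes `p ≤ y` -/
noncomputable def S {l : ℕ} (r : Fin l → ℕ) (y : ℕ) : ℝ :=
  ∏ p ∈ (Icc 1 y).filter Nat.Prime, ((1 - (w r p : ℝ) / p) / (1 - 1 / (p : ℝ)) ^ l)

/-- all prime factors of `m` are `> z` -/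
def Rough (z : ℝ) (m : ℕ) : Prop := ∀ p : ℕ, p.Prime → p ∣ m → z < p

/-- the integers `q` with `x < q ≤ 2x`, `q ≡ u (mod d)`, such that `q r_i + 1` is a prime, `q r_j + 1` has at most two prime factors (with multiplicity), all
`> x ^ (1/8)`, and no `q r_h + 1` has a prime factor `≤ x ^ (1/t)` -/
def Good (t : ℕ) (x : ℝ) {l : ℕ} (r : Fin l → ℕ) (i j : Fin l) (d u : ℕ) : Set ℕ :=
  {q : ℕ | x < q ∧ (q : ℝ) ≤ 2 * x ∧ q ≡ u [MOD d] ∧ (q * r i + 1).Prime ∧ (q * r j + 1).primeFactorsList.length ≤ 2 ∧ Rough (x ^ (1 / 8 : ℝ)) (q * r j + 1) ∧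
    ∀ h, Rough (x ^ (1 / (t : ℝ))) (q * r h + 1)}

theorem fm_eq {l : ℕ} (r : Fin l → ℕ) (h : Fin l) (q : ℕ) : Pool.Agent.Q117.LF.fm r (fun _ => 1) h q = ((q * r h + 1 : ℕ) : ℤ) := by
  unfold Pool.Agent.Q117.LF.fm
  push_cast
  ring

theorem dvd_iff {l : ℕ} (r : Fin l → ℕ) {p : ℕ} (hp : p.Prime) (q : ℕ) :
    (∃ h, (p : ℤ) ∣ Pool.Agent.Q117.LF.fm r (fun _ => 1) h q) ↔ p ∣ ∏ j, (q * r j + 1) := by
  rw [hp.prime.dvd_finsetProd_iff]
  constructor
  · rintro ⟨h, hh⟩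
    rw [fm_eq] at hh
    exact ⟨h, mem_univ _, by exact_mod_cast hh⟩
  · rintro ⟨h, -, hh⟩
    refine ⟨h, ?_⟩
    rw [fm_eq]
    exact_mod_cast hh

theorem om_eq {l : ℕ} (r : Fin l → ℕ) {p : ℕ} (hp : p.Prime) : Pool.Agent.Q117.LF.om r (fun _ => 1) p = w r p := by
  classical
  unfold Pool.Agent.Q117.LF.om w
  congr 1
  apply filter_congr
  intro q _
  exact dvd_iff r hp q

theorem toSet {t : ℕ} {x b : ℝ} {l : ℕ} {r : Fin l → ℕ} {i j : Fin l} {d u : ℕ}
    (h : b ≤ ((Pool.Agent.Q117.LF.PtsC t x r (fun _ => 1) i j d u).card : ℝ)) : b ≤ ((Good t x r i j d u).ncard : ℝ) := by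
  classical
  refine h.trans ?_
  rw [← Set.ncard_coe_finset]
  have hfin : (Good t x r i j d u).Finite := by
    apply Set.Finite.subset (Set.finite_Iic ⌊2 * x⌋₊)
    intro q hq
    exact Nat.le_floor hq.2.1
  have hsub : ((Pool.Agent.Q117.LF.PtsC t x r (fun _ => 1) i j d u : Finset ℕ) : Set ℕ) ⊆ Good t x r i j d u := by
    intro q hq
    unfold Pool.Agent.Q117.LF.PtsC at hq
    obtain ⟨h0, h1, h2, h3, h4, h5, h6⟩ := mem_filter.1 (mem_coe.1 hq)
    rw [fm_eq] at h4 h5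
    have h4' : (q * r i + 1).Prime := by rwa [Int.natAbs_natCast] at h4
    have h5' : (q * r j + 1).primeFactorsList.length ≤ 2 := by
      have h9 := h5.1
      rwa [Int.natAbs_natCast] at h9
    have hx0 : 0 ≤ 2 * x := by
      by_contra hcon
      push Not at hcon
      have h9 : (0 : ℝ) ≤ (q : ℝ) := Nat.cast_nonneg q
      have h10 : ⌊2 * x⌋₊ = 0 := Nat.floor_of_nonpos hcon.le
      rw [h10, mem_range] at h0
      have h11 : q = 0 := by omega
      subst h11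
      rw [zero_mul, zero_add] at h4'
      exact absurd h4' (by decide)
    refine ⟨h1, ?_, h2, ?_, ?_, ?_, ?_⟩
    · rw [mem_range] at h0
      exact (Nat.le_floor_iff hx0).1 (by omega)
    · exact h4'
    · exact h5'
    · intro p hp hd
      exact h5.2 p hp (by exact_mod_cast hd)
    · intro h p hp hd
      exact h6 h p hp (by rw [fm_eq]; exact_mod_cast hd)
  exact_mod_cast Set.ncard_le_ncard hsub hfin

theorem result : ∀ l a b : ℕ, 1 ≤ a → 1 ≤ b → ∃ t : ℕ, 1 ≤ t ∧ ∃ c : ℝ, 0 < c ∧ ∃ x0 : ℝ, ∀ x : ℝ, x0 ≤ x → ∀ r : Fin l → ℕ, Function.Injective r →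
    (∀ h, 1 ≤ r h ∧ (r h : ℝ) ≤ x) → (∀ p : ℕ, p.Prime → w r p < p) → ∀ i j : Fin l, i ≠ j → r i = a → r j = b →
    (∀ y : ℕ, 2 * x ≤ y → c * (x / Real.log x ^ l * S r y) ≤ ((Good t x r i j 1 0).ncard : ℝ)) ∧
    ∃ W : ℕ, Squarefree W ∧ x ^ (1 / 300000 : ℝ) ≤ W ∧ (∀ p : ℕ, p.Prime → p ∣ W → (p : ℝ) ≤ 2 * Real.log x) ∧
      ∀ d : ℕ, d ∣ W → ∀ u : ℕ, (∀ h, (u * r h + 1).Coprime d) →
        c * (x / d * ∏ p ∈ (Icc 1 ⌊2 * x⌋₊).filter (fun p => p.Prime ∧ ¬ p ∣ d), (1 - (w r p : ℝ) / p)) ≤ ((Good t x r i j d u).ncard : ℝ) := by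
  classical
  intro l a b ha hb
  obtain ⟨t, ht, c, hc, x0, H⟩ := Pool.Agent.Q117.LF.t42 Pool.Agent.Q117.LF.unqC Pool.Agent.Q117.LF.ssy l a b ha hb
  refine ⟨t, ht, c, hc, max x0 1, fun x hx r hr hr1 hadm i j hij hi hj => ?_⟩
  have hx0 : x0 ≤ x := (le_max_left _ _).trans hx
  have hx1 : 1 ≤ x := (le_max_right _ _).trans hx
  obtain ⟨H1, W, hW1, hW2, hW3, H2⟩ := H x hx0 r (fun _ => 1) i j hij hi hj hr1 (fun _ => by simpa using hx1)
    (fun k m hkm => by
      intro h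
      apply hkm
      apply hr
      have : ((r k : ℕ) : ℤ) = r m := by simpa using h
      exact_mod_cast this)
    (fun p hp => by
      have h1 := hadm p hp
      unfold w at h1
      have h2 : ((range p).filter (fun q : ℕ => p ∣ ∏ j, (q * r j + 1))) ≠ range p := by
        intro h
        rw [h, card_range] at h1
        exact lt_irrefl _ h1
      have h3 : ∃ q ∈ range p, ¬ p ∣ ∏ j, (q * r j + 1) := by
        by_contra hcon
        push Not at hcon
        exact h2 (filter_true_of_mem hcon)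
      obtain ⟨q, -, hq⟩ := h3
      refine ⟨q, fun h hd => hq ((dvd_iff r hp q).1 ⟨h, hd⟩)⟩)
  refine ⟨fun y hy => toSet ?_, W, hW1, hW2, hW3, fun d hd u hu => toSet ?_⟩
  · refine le_trans (le_of_eq ?_) (H1 y hy)
    unfold S
    congr 2
    apply prod_congr rfl
    intro p hp
    rw [om_eq r (mem_filter.1 hp).2]
  · refine le_trans (le_of_eq ?_) (H2 d hd u ?_)
    · congr 2
      apply prod_congr rfl
      intro p hp
      rw [om_eq r (mem_filter.1 hp).2.1]
    · intro p hp hpd h hd2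
      rw [fm_eq] at hd2
      have h1 : p ∣ u * r h + 1 := by exact_mod_cast hd2
      exact hp.one_lt.ne' (Nat.dvd_one.1 ((hu h) ▸ Nat.dvd_gcd h1 hpd))

end Pool.Agent.Results.MP_d018b2_nt.ChenInUniformTuples
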