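import Pool.Agent.Q106.QR.Fin

/-!
# MP_d018b2_nt: the exact range of uniformity for the forms `q r + 1` in the sieved models of the primes

The sieved model of level `Q`: a random set `A` which contains the integers `n` coprime to `Q` independently with
probability `(Q / φ(Q)) / log n` (at most `1`), and no others (`IsModel μ (level Q) A`; `Q = 1` is Cramér's model). For
`k` coefficients `r` the Bateman-Horn asymptotic (with the singular series of level `Q`) for the number of the
`q` in `[x, 2 x)` with all `q r + 1` in `A` holds almost surely uniformly for all sets of `k` coefficients up to `D(x)`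
if and only if `log D(x) = o(x^(1/(k+1)))`. At the critical size `exp (c x^(1/(k+1)))` the limit points of the quotients
of the numbers and their predictions are exactly the `u` with `s (1 - u + u log u) ≤ k c^(k+1)`, for the sets of
coefficients with singular series `s`.
-/

set_option autoImplicit false

namespace Pool.Agent.Results.MP_d018b2_nt.ExactRangeOfCoefficients

open Finset MeasureTheory ProbabilityTheory Filter
open scoped Topology
open Pool.Agent.Q120.GM (IsModel level)
open Pool.Agent.Q106.UR (II)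
open Pool.Agent.Q106.QR (NR MR LR YR sgR GoodR ccR ShR)

/-- The number of the `q` in `[x, 2 x)` such that all `q r + 1`, `r ∈ R`, are elements of `A`. -/
noncomputable def count (A : Set ℕ) (R : Finset ℕ) (x : ℕ) : ℝ :=
  ({q : ℕ | x ≤ q ∧ q < 2 * x ∧ ∀ r ∈ R, q * r + 1 ∈ A}.ncard : ℝ)

/-- The predicted number: the singular series of level `Q` times `x` divided by the product of the `log (x r)`. -/
noncomputable def predicted (Q : ℕ) (R : Finset ℕ) (x : ℕ) : ℝ :=
  sgR Q R * x / ∏ r ∈ R, Real.log ((x : ℝ) * r)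

/-- `x^(1/(k+1))` -/
noncomputable def Y (k x : ℕ) : ℝ := (x : ℝ) ^ (1 / ((k : ℝ) + 1))

/-- The rate function `1 - u + u log u`. -/
noncomputable def rate (u : ℝ) : ℝ := 1 - u + u * Real.log u

/-- `R` consists of `k` positive integers not larger than `D`. -/
def Coeffs (k : ℕ) (D : ℝ) (R : Finset ℕ) : Prop := R.card = k ∧ 0 ∉ R ∧ ∀ r ∈ R, (r : ℝ) ≤ D

theorem count_eq {Ω : Type} (A : Ω → Set ℕ) (R : Finset ℕ) (x : ℕ) (ω : Ω) :
    count (A ω) R x = NR A R x ω := by
  unfold count NR
  rw [Pool.Agent.Q106.UR.nm_card]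
  congr 1
  rw [← Set.ncard_coe_finset]
  congr 1
  ext n
  rw [Finset.mem_coe, Pool.Agent.Q106.UR.mem_oc, mem_Ico]
  constructor
  · rintro ⟨h1, h2, h3⟩
    refine ⟨⟨h1, h2⟩, ?_⟩
    intro b hb
    obtain ⟨h, hh, rfl⟩ := Pool.Agent.Q106.QR.mem_tq.1 hb
    exact h3 h hh
  · rintro ⟨⟨h1, h2⟩, h3⟩
    exact ⟨h1, h2, fun h hh => h3 _ (Pool.Agent.Q106.QR.mem_tq.2 ⟨h, hh, rfl⟩)⟩

theorem predicted_eq (Q : ℕ) (R : Finset ℕ) (x : ℕ) : predicted Q R x = MR Q R x := rfl

theorem predicted_pos {Q : ℕ} {R : Finset ℕ} (h0 : 0 ∉ R) {x : ℕ} (hx : 1 ≤ Real.log x)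
    (hs : 0 < sgR Q R) : 0 < predicted Q R x := by
  rw [predicted_eq]
  unfold MR
  have h1 := Pool.Agent.Q106.QR.LR_pos (R := R) h0 hx
  have hx0 : (0 : ℝ) < x := by
    rcases Nat.eq_zero_or_pos x with h0 | h0
    · rw [h0] at hx
      norm_num at hx
    · exact_mod_cast h0
  positivity

/-- If the series vanishes then there are no arguments. -/
theorem count_zero {Q : ℕ} (hQ : 1 ≤ Q) {R : Finset ℕ} (hs : ¬ 0 < sgR Q R) {B : Set ℕ} (hB : ∀ n ∈ B, n.Coprime Q)
    (x : ℕ) : sgR Q R = 0 ∧ count B R x = 0 := by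
  have hQ0 : (0 : ℝ) < Q := by exact_mod_cast hQ
  have hq := Pool.Agent.Q120.GM.qq_pos hQ
  have hc : ccR Q R = 0 := by
    by_contra hcon
    apply hs
    rw [Pool.Agent.Q106.QR.sgR_eq]
    have h1 : 0 < ccR Q R := Nat.pos_of_ne_zero hcon
    have h2 : (0 : ℝ) < ccR Q R := by exact_mod_cast h1
    positivity
  constructor
  · rw [Pool.Agent.Q106.QR.sgR_eq, hc]
    norm_num
  · unfold count
    have h1 : {q : ℕ | x ≤ q ∧ q < 2 * x ∧ ∀ r ∈ R, q * r + 1 ∈ B} = ∅ := by
      rw [Set.eq_empty_iff_forall_notMem]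
      rintro q ⟨_, _, h3⟩
      have h4 : GoodR Q R (q % Q) := by
        intro r hr
        have h5 := hB _ (h3 r hr)
        have h6 : q * r + 1 = (q % Q * r + 1) + Q * (q / Q * r) := by
          have h7 := Nat.mod_add_div q Q
          calc q * r + 1 = (q % Q + Q * (q / Q)) * r + 1 := by rw [h7]
            _ = _ := by ring
        rw [h6, Nat.coprime_add_mul_left_left] at h5
        exact h5
      have h5 : q % Q ∈ (range Q).filter (GoodR Q R) := mem_filter.2 ⟨mem_range.2 (Nat.mod_lt _ hQ), h4⟩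
      unfold ccR at hc
      rw [card_eq_zero] at hc
      rw [hc] at h5
      exact notMem_empty _ h5
    rw [h1, Set.ncard_empty]
    norm_num

/-- A set of coefficients with positive series. -/
theorem exists_coeffs {Q : ℕ} (hQ : 1 ≤ Q) (k : ℕ) : ∃ R : Finset ℕ, R.card = k ∧ 0 < sgR Q R := by
  refine ⟨(range k).image (fun i => Q * (i + 1)), ?_, ?_⟩
  · rw [card_image_of_injective, card_range]
    intro i j h
    have h1 : i + 1 = j + 1 := Nat.eq_of_mul_eq_mul_left hQ h
    omega
  · have hq := Pool.Agent.Q120.GM.qq_pos hQ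
    rw [Pool.Agent.Q106.QR.sgR_eq]
    have hQ0 : (0 : ℝ) < Q := by exact_mod_cast hQ
    have hc : 0 < ccR Q ((range k).image (fun i => Q * (i + 1))) := by
      unfold ccR
      rw [card_pos]
      refine ⟨0, ?_⟩
      rw [mem_filter, mem_range]
      refine ⟨by omega, fun h _ => ?_⟩
      rw [zero_mul, zero_add]
      exact Nat.coprime_one_left _
    have hc' : (0 : ℝ) < ccR Q ((range k).image (fun i => Q * (i + 1))) := by exact_mod_cast hc
    positivity

theorem small_c (k : ℕ) {b : ℝ} (hb : 0 < b) : ∃ c : ℝ, 0 < c ∧ k * c ^ (k + 1) < b := by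
  refine ⟨min 1 (b / (k + 1)), lt_min one_pos (by positivity), ?_⟩
  obtain ⟨c, hc⟩ : ∃ c, c = min 1 (b / ((k : ℝ) + 1)) := ⟨_, rfl⟩
  have hc0 : 0 < c := by rw [hc]; exact lt_min one_pos (by positivity)
  have hc1 : c ≤ 1 := by rw [hc]; exact min_le_left _ _
  have hc2 : c ≤ b / (k + 1) := by rw [hc]; exact min_le_right _ _
  rw [← hc]
  have h1 : c ^ (k + 1) ≤ c := pow_le_of_le_one hc0.le hc1 (by omega)
  rw [le_div_iff₀ (by positivity)] at hc2
  have h2 : (k : ℝ) * c ^ (k + 1) ≤ k * c := mul_le_mul_of_nonneg_left h1 (Nat.cast_nonneg k)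
  nlinarith

/-- **The exact range of the coefficients.** -/
theorem result (Q : ℕ) (hQ : 1 ≤ Q) :
    (∃ (Ω : Type) (_ : MeasurableSpace Ω) (μ : Measure Ω) (_ : IsProbabilityMeasure μ) (A : Ω → Set ℕ),
      IsModel μ (level Q) A) ∧
    ∀ (Ω : Type) [MeasurableSpace Ω] (μ : Measure Ω) [IsProbabilityMeasure μ] (A : Ω → Set ℕ),
      IsModel μ (level Q) A → ∀ᵐ ω ∂μ, ∀ k : ℕ, 1 ≤ k →
      -- below the critical size there are no deviations
      (∀ c s u : ℝ, 0 < c → 0 < s → k * c ^ (k + 1) < s * rate u →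
        (1 < u → ∀ᶠ x : ℕ in atTop, ∀ R : Finset ℕ, Coeffs k (Real.exp (c * Y k x)) R → s ≤ sgR Q R →
          count (A ω) R x < u * predicted Q R x) ∧
        (0 ≤ u → u < 1 → ∀ᶠ x : ℕ in atTop, ∀ R : Finset ℕ, Coeffs k (Real.exp (c * Y k x)) R →
          s ≤ sgR Q R → u * predicted Q R x < count (A ω) R x)) ∧
      -- above it there are all deviations
      (∀ (R₀ : Finset ℕ) (c u ε : ℝ), R₀.card = k → 0 < sgR Q R₀ → 0 < c → 0 ≤ u → 0 < ε →
        sgR Q R₀ * rate u < k * c ^ (k + 1) →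
        ∀ᶠ x : ℕ in atTop, ∃ R : Finset ℕ, Coeffs k (Real.exp (c * Y k x)) R ∧
          (∀ n, GoodR Q R n ↔ GoodR Q R₀ n) ∧ sgR Q R = sgR Q R₀ ∧
          |count (A ω) R x - u * predicted Q R x| ≤ ε * predicted Q R x ∧ (u = 0 → count (A ω) R x = 0)) ∧
      -- the range of uniformity
      (∀ D : ℕ → ℝ, (∀ x, 1 ≤ D x) →
        ((∀ ε > 0, ∀ᶠ x : ℕ in atTop, ∀ R : Finset ℕ, Coeffs k (D x) R →
          |count (A ω) R x - predicted Q R x| ≤ ε * predicted Q R x) ↔
        Tendsto (fun x => Real.log (D x) / Y k x) atTop (𝓝 0))) ∧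
      -- the range of the question
      (∀ b > 0, ∀ ε > 0, ∀ᶠ x : ℕ in atTop, ∀ R : Finset ℕ, Coeffs k (b * Real.log x) R →
        |count (A ω) R x - sgR Q R * (x / Real.log x ^ k)| ≤ ε * (sgR Q R * (x / Real.log x ^ k))) := by
  refine ⟨⟨ℕ → Bool, inferInstance, Pool.Agent.Q120.GM.prodMeasure (level Q), inferInstance,
    Pool.Agent.Q120.GM.trueSet, Pool.Agent.Q120.GM.isModel (level Q) (Pool.Agent.Q120.GM.level_nonneg Q)
      (Pool.Agent.Q120.GM.level_le_one Q)⟩, ?_⟩
  intro Ω _ μ _ A hA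
  have hQ0 : (0 : ℝ) < Q := by exact_mod_cast hQ
  filter_upwards [Pool.Agent.Q106.QR.all_upR hA hQ, Pool.Agent.Q106.QR.all_dnR hA hQ,
    Pool.Agent.Q106.QR.all_exR hA hQ, Pool.Agent.Q106.UR.ae_coprime hA] with ω hup hdn hex hcop k hk
  have hYY : ∀ x, Y k x = YR k x := fun x => rfl
  have hII : ∀ u, rate u = II u := fun u => rfl
  have P1 : ∀ c s u : ℝ, 0 < c → 0 < s → k * c ^ (k + 1) < s * rate u →
        (1 < u → ∀ᶠ x : ℕ in atTop, ∀ H : Finset ℕ, Coeffs k (Real.exp (c * Y k x)) H → s ≤ sgR Q H →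
          count (A ω) H x < u * predicted Q H x) ∧
        (0 ≤ u → u < 1 → ∀ᶠ x : ℕ in atTop, ∀ H : Finset ℕ, Coeffs k (Real.exp (c * Y k x)) H →
          s ≤ sgR Q H → u * predicted Q H x < count (A ω) H x) := by
    intro c s u hc hs hcr
    constructor
    · intro hu
      filter_upwards [hup k c s u hk hc hs hu hcr] with x hx H hH hs'
      rw [count_eq, predicted_eq Q]
      exact hx H ⟨hH.1, hH.2.1, hH.2.2, hs'⟩
    · intro hu0 hu
      filter_upwards [hdn k c s u hk hc hs hu0 hu hcr] with x hx H hH hs'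
      rw [count_eq, predicted_eq Q]
      exact hx H ⟨hH.1, hH.2.1, hH.2.2, hs'⟩
  have P2 : ∀ (R₀ : Finset ℕ) (c u ε : ℝ), R₀.card = k → 0 < sgR Q R₀ → 0 < c → 0 ≤ u → 0 < ε →
        sgR Q R₀ * rate u < k * c ^ (k + 1) →
        ∀ᶠ x : ℕ in atTop, ∃ H : Finset ℕ, Coeffs k (Real.exp (c * Y k x)) H ∧
          (∀ n, GoodR Q H n ↔ GoodR Q R₀ n) ∧ sgR Q H = sgR Q R₀ ∧
          |count (A ω) H x - u * predicted Q H x| ≤ ε * predicted Q H x ∧ (u = 0 → count (A ω) H x = 0) := by
    intro R₀ c u ε h1 h3 h4 h5 h6 h7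
    filter_upwards [hex k R₀ c u ε hk h1 h3 h4 h5 h7 h6] with x hx
    obtain ⟨H, ⟨e1, e2, e3, _⟩, e4, e5, e6, e7⟩ := hx
    refine ⟨H, ⟨e1, e2, e3⟩, e4, e5, ?_, ?_⟩
    · rw [count_eq, predicted_eq Q]
      exact e6
    · intro h
      rw [count_eq]
      exact e7 h
  have P3 : ∀ D : ℕ → ℝ, (∀ x, 1 ≤ D x) → Tendsto (fun x => Real.log (D x) / Y k x) atTop (𝓝 0) →
      ∀ ε > 0, ∀ᶠ x : ℕ in atTop, ∀ H : Finset ℕ, Coeffs k (D x) H →
          |count (A ω) H x - predicted Q H x| ≤ ε * predicted Q H x := by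
    intro D hD hlim ε hε
    obtain ⟨θ, hθ⟩ : ∃ θ, θ = min ε (1 / 2) := ⟨_, rfl⟩
    have hθ0 : 0 < θ := by rw [hθ]; exact lt_min hε (by norm_num)
    have hθ1 : θ ≤ ε := by rw [hθ]; exact min_le_left _ _
    have hθ2 : θ ≤ 1 / 2 := by rw [hθ]; exact min_le_right _ _
    have hI1 : 0 < rate (1 + θ) := Pool.Agent.Q106.UR.II_pos (by linarith) (by linarith)
    have hI2 : 0 < rate (1 - θ) := Pool.Agent.Q106.UR.II_pos (by linarith) (by linarith)
    have hs0 : (0 : ℝ) < 1 / Q := by positivity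
    obtain ⟨c, hc0, hc⟩ := small_c k (show 0 < min (1 / (Q : ℝ) * rate (1 + θ)) (1 / (Q : ℝ) * rate (1 - θ)) by
      exact lt_min (by positivity) (by positivity))
    have h1 := (P1 c (1 / Q) (1 + θ) hc0 hs0 (hc.trans_le (min_le_left _ _))).1 (by linarith)
    have h2 := (P1 c (1 / Q) (1 - θ) hc0 hs0 (hc.trans_le (min_le_right _ _))).2 (by linarith) (by linarith)
    have h3 := hlim.eventually_le_const hc0
    filter_upwards [h1, h2, h3, (Pool.Agent.Q106.QR.YR_tendsto k).eventually_gt_atTop 0,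
      Pool.Agent.Q106.UR.log_tendsto.eventually_ge_atTop 1] with x h1 h2 h3 h4 h5 H hH
    by_cases hs : 0 < sgR Q H
    · have hY0 : 0 < Y k x := h4
      rw [div_le_iff₀ hY0] at h3
      have hDx : D x ≤ Real.exp (c * Y k x) := by
        have h6 : 0 < D x := lt_of_lt_of_le one_pos (hD x)
        calc D x = Real.exp (Real.log (D x)) := (Real.exp_log h6).symm
          _ ≤ _ := Real.exp_le_exp.2 h3
      have hH' : Coeffs k (Real.exp (c * Y k x)) H := ⟨hH.1, hH.2.1, fun h hh => (hH.2.2 h hh).trans hDx⟩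
      have hs' := Pool.Agent.Q106.QR.sgR_ge hQ hs
      have e1 := h1 H hH' hs'
      have e2 := h2 H hH' hs'
      have hp := predicted_pos (Q := Q) hH.2.1 h5 hs
      rw [abs_le]
      constructor
      · nlinarith
      · nlinarith
    · obtain ⟨z1, z2⟩ := count_zero hQ hs hcop x
      unfold predicted
      rw [z1, z2]
      norm_num
  refine ⟨P1, P2, fun D hD => ⟨fun hU => ?_, P3 D hD⟩, ?_⟩
  · by_contra hcon
    -- the quotient is large again and again
    have hfreq : ∃ c > 0, ∃ᶠ x : ℕ in atTop, c ≤ Real.log (D x) / Y k x := by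
      by_contra hno
      push Not at hno
      apply hcon
      rw [Metric.tendsto_atTop']
      intro ε hε
      have h1 := hno ε hε
      obtain ⟨N, hN⟩ := eventually_atTop.1 h1
      refine ⟨N, fun x hx => ?_⟩
      have h2 := hN x hx.le
      rw [dist_zero_right, Real.norm_of_nonneg]
      · exact h2
      · exact div_nonneg (Real.log_nonneg (hD x)) (Pool.Agent.Q106.QR.YR_nonneg k x)
    obtain ⟨c, hc0, hfr⟩ := hfreq
    obtain ⟨R₀, hH1, hH3⟩ := exists_coeffs hQ k
    -- a deviation
    have hk0 : (0 : ℝ) < k := by exact_mod_cast hk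
    obtain ⟨u, hu1, hu⟩ : ∃ u : ℝ, 1 < u ∧ sgR Q R₀ * rate u < k * c ^ (k + 1) := by
      have h1 : Tendsto (fun t => sgR Q R₀ * II t) (𝓝 1) (𝓝 (sgR Q R₀ * II 1)) :=
        (continuous_const.mul Pool.Agent.Q106.UR.II_cont).tendsto 1
      have h2 : II 1 = 0 := by
        unfold II
        norm_num
      rw [h2, mul_zero] at h1
      have h3 := h1.eventually_lt_const (show 0 < k * c ^ (k + 1) by positivity)
      obtain ⟨r, hr, h4⟩ := Metric.eventually_nhds_iff.1 h3
      refine ⟨1 + r / 2, by linarith, h4 ?_⟩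
      rw [Real.dist_eq, add_sub_cancel_left, abs_of_pos (by positivity)]
      linarith
    have h1 := P2 R₀ c u ((u - 1) / 2) hH1 hH3 hc0 (by linarith) (by linarith) hu
    have h2 := hU ((u - 1) / 4) (by linarith)
    obtain ⟨x, hx1, hx2, hx3, hx4, hx5⟩ := (hfr.and_eventually (h1.and (h2.and
      ((Pool.Agent.Q106.UR.log_tendsto.eventually_ge_atTop 1).and
        ((Pool.Agent.Q106.QR.YR_tendsto k).eventually_gt_atTop 0))))).exists
    have hY0 : 0 < Y k x := hx5
    rw [le_div_iff₀ hY0] at hx1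
    have hDx : Real.exp (c * Y k x) ≤ D x := by
      have h6 : 0 < D x := lt_of_lt_of_le one_pos (hD x)
      calc Real.exp (c * Y k x) ≤ Real.exp (Real.log (D x)) := Real.exp_le_exp.2 hx1
        _ = D x := Real.exp_log h6
    obtain ⟨H, hH, _, hsing, hdev, _⟩ := hx2
    have hs : 0 < sgR Q H := by rw [hsing]; exact hH3
    have hdev' := hx3 H ⟨hH.1, hH.2.1, fun h hh => (hH.2.2 h hh).trans hDx⟩
    have hp := predicted_pos (Q := Q) hH.2.1 hx4 hs
    rw [abs_le] at hdev hdev'
    nlinarith [hdev.1, hdev'.2]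
  · intro b hb ε hε
    obtain ⟨δ, hδ0, hδ1, _, hδ⟩ := Pool.Agent.Q106.UR.exists_eps k (B := 0) (show 0 < ε / 2 by positivity)
    obtain ⟨D, hD⟩ : ∃ D : ℕ → ℝ, D = fun x : ℕ => max 1 (b * Real.log (x : ℝ)) := ⟨_, rfl⟩
    have hD1 : ∀ x, 1 ≤ D x := fun x => by rw [hD]; exact le_max_left _ _
    have hlim : Tendsto (fun x => Real.log (D x) / Y k x) atTop (𝓝 0) := by
      rw [Metric.tendsto_atTop']
      intro η hη
      have h1 := Pool.Agent.Q106.QR.YR_log k (2 * (b + 1) / η)
      have h2 := Pool.Agent.Q106.UR.log_tendsto.eventually_ge_atTop 1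
      obtain ⟨N, hN⟩ := eventually_atTop.1 (h1.and h2)
      refine ⟨N, fun x hx => ?_⟩
      obtain ⟨h3, h4⟩ := hN x hx.le
      have hl : 0 < Real.log x := by linarith
      have hY0 : 0 < Y k x := by
        show 0 < YR k x
        refine lt_of_lt_of_le ?_ h3
        positivity
      have hDx : D x ≤ (b + 1) * Real.log x := by
        rw [hD]
        refine max_le ?_ ?_
        · nlinarith
        · nlinarith
      have hDp : 0 < D x := lt_of_lt_of_le one_pos (hD1 x)
      rw [dist_zero_right, Real.norm_of_nonneg (div_nonneg (Real.log_nonneg (hD1 x)) hY0.le), div_lt_iff₀ hY0]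
      have h5 : Real.log (D x) ≤ D x := by
        have := Real.log_le_sub_one_of_pos hDp
        linarith
      have h6 : 2 * (b + 1) / η * Real.log x ≤ Y k x := h3
      have h7 : 2 * (b + 1) * Real.log x ≤ η * Y k x := by
        have h8 := mul_le_mul_of_nonneg_left h6 hη.le
        have h9 : η * (2 * (b + 1) / η * Real.log x) = 2 * (b + 1) * Real.log x := by field_simp
        linarith
      have h9 : 0 < (b + 1) * Real.log x := by positivity
      linarith
    filter_upwards [P3 D hD1 hlim (ε / 2) (by positivity), Pool.Agent.Q106.UR.log_tendsto.eventually_ge_atTop 1,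
      Pool.Agent.Q106.UR.log_tendsto.eventually_ge_atTop (2 * Real.log (2 * (b + 1) / δ) / δ)]
      with x h1 h2 h3 H hH
    obtain ⟨hH1, h0, hH2⟩ := hH
    by_cases hs : 0 < sgR Q H
    · have hx0 : (0 : ℝ) < x := by
        rcases Nat.eq_zero_or_pos x with h0 | h0
        · rw [h0] at h2
          norm_num at h2
        · exact_mod_cast h0
      have hx1 : 1 ≤ x := by
        have : 0 < x := by exact_mod_cast hx0
        exact this
      have hl : 0 < Real.log x := by linarith
      have hr1 : ∀ r ∈ H, 1 ≤ r := by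
        intro r hr
        rcases Nat.eq_zero_or_pos r with h | h
        · rw [h] at hr
          exact absurd hr h0
        · exact h
      have e1 := h1 H ⟨hH1, h0, fun h hh => (hH2 h hh).trans (by rw [hD]; exact le_max_right _ _)⟩
      have hp := predicted_pos (Q := Q) h0 h2 hs
      obtain ⟨P, hP⟩ : ∃ P, P = sgR Q H * (x / Real.log x ^ k) := ⟨_, rfl⟩
      rw [← hP]
      have hP0 : 0 < P := by rw [hP]; positivity
      -- the logarithms
      have hlogb : Real.log ((b + 1) * Real.log x) ≤ δ * Real.log x := by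
        have g1 : Real.log ((b + 1) * Real.log x) = Real.log (2 * (b + 1) / δ) + Real.log (δ / 2 * Real.log x) := by
          rw [← Real.log_mul (by positivity) (by positivity)]
          congr 1
          field_simp
        have g2 : Real.log (δ / 2 * Real.log x) ≤ δ / 2 * Real.log x := by
          have := Real.log_le_sub_one_of_pos (show 0 < δ / 2 * Real.log x by positivity)
          linarith
        have g3 : Real.log (2 * (b + 1) / δ) ≤ δ / 2 * Real.log x := by
          rw [div_le_iff₀ hδ0] at h3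
          linarith
        rw [g1]
        linarith
      have hprod1 : Real.log x ^ k ≤ ∏ h ∈ H, Real.log ((x : ℝ) * h) := by
        rw [← hH1, ← prod_const]
        exact prod_le_prod (fun _ _ => hl.le) (fun h hh => Pool.Agent.Q106.QR.log_mul_ge hx1 (hr1 h hh))
      have hprod2 : ∏ h ∈ H, Real.log ((x : ℝ) * h) ≤ ((1 + δ) * Real.log x) ^ k := by
        rw [← hH1, ← prod_const]
        refine prod_le_prod (fun h hh => ?_) (fun h hh => ?_)
        · exact hl.le.trans (Pool.Agent.Q106.QR.log_mul_ge hx1 (hr1 h hh))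
        · have h5 := hH2 h hh
          have h6 : (1 : ℝ) ≤ h := by exact_mod_cast hr1 h hh
          rw [Real.log_mul hx0.ne' (by linarith)]
          have h7 : Real.log h ≤ Real.log ((b + 1) * Real.log x) := Real.log_le_log (by linarith) (by nlinarith)
          linarith
      have hp1 : predicted Q H x ≤ P := by
        rw [hP, mul_div_assoc']
        unfold predicted
        exact div_le_div_of_nonneg_left (by positivity) (by positivity) hprod1
      have hp2 : P ≤ (1 + δ) ^ k * predicted Q H x := by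
        have hpr : 0 < ∏ h ∈ H, Real.log ((x : ℝ) * h) := lt_of_lt_of_le (by positivity) hprod1
        rw [hP]
        unfold predicted
        rw [mul_div_assoc', mul_div_assoc', div_le_div_iff₀ (by positivity) (by positivity)]
        have h5 := mul_le_mul_of_nonneg_left hprod2 (show 0 ≤ sgR Q H * x by positivity)
        calc sgR Q H * x * ∏ h ∈ H, Real.log ((x : ℝ) * h) ≤ sgR Q H * x * ((1 + δ) * Real.log x) ^ k := h5
          _ = (1 + δ) ^ k * (sgR Q H * x) * Real.log x ^ k := by
            rw [mul_pow]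
            ring
      have hδk : (1 + δ) ^ k ≤ 1 + ε / 2 := by
        have : (1 + δ) ^ k ≤ (1 + δ) ^ k := le_refl _
        nlinarith
      rw [abs_le] at e1 ⊢
      constructor <;> nlinarith [e1.1, e1.2]
    · obtain ⟨z1, z2⟩ := count_zero hQ hs hcop x
      rw [z1, z2]
      norm_num

end Pool.Agent.Results.MP_d018b2_nt.ExactRangeOfCoefficients
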