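import Pool.Agent.Q236.FL.ModLin

set_option autoImplicit false

/-!
# The law of the small `k` for which `a + k q` is almost prime, for random moduli `q`

Let `a_1, …, a_s` be fixed nonzero integers.  Call an integer rough if it has no prime factor `≤ X ^ (1 / r)`; a
rough number of size at most `X ^ K` has at most `K r` prime factors.  Let `V = ∏_{p ≤ X ^ (1 / r)} (1 - 1 / p)`,
of the order `1 / log X`.  For the modulus `q` measure `k` in units of `L(q) = φ(q) / (q V)`.  When `q` runs through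
the integers of an interval of length at least `X ^ θ` (in `[1, X ^ A]`) prime to all the `a_i`, the point processes
of the `k / L(q)` for which `a_i + k q` is rough converge jointly to INDEPENDENT Poisson processes of rate one, one for
each different residue: the numbers of points in given windows are, up to `ε` in total variation, independent Poisson
variables.  In particular (windows `(0, z_i]`, `S = {0}`) the least rough numbers congruent to `a_1, …, a_s` modulo `q`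
are asymptotically independent exponential variables in units of `φ(q) / V`.

All multipliers `k` are of the size `log X`, as the `r_j` in the conjecture of the problem, from which the
corresponding law for primes (one residue, `S = {0}`) was derived by Granville.
-/

namespace Pool.Agent.Results.MP_d018b2_nt.FixedResidues

open Finset Filter

/-- `n` has no prime factor `≤ X ^ (1 / r)`. -/
def Rough (X r : ℕ) (n : ℤ) : Prop := ∀ p : ℕ, p.Prime → (p : ℝ) ≤ (X : ℝ) ^ (1 / (r : ℝ)) → ¬ (p : ℤ) ∣ n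

/-- The product of `1 - 1 / p` over the primes `p ≤ X ^ (1 / r)`. -/
noncomputable def V (X r : ℕ) : ℝ := ∏ p ∈ (Icc 1 ⌊(X : ℝ) ^ (1 / (r : ℝ))⌋₊).filter Nat.Prime, (1 - 1 / (p : ℝ))

/-- The unit `φ(q) / (q V)` for the multipliers. -/
noncomputable def L (X r q : ℕ) : ℝ := (q.totient : ℝ) / q / V X r

open Classical in
/-- The number of the integers `k` with `x L(q) < k ≤ z L(q)` for which `a + k q` is rough. -/
noncomputable def N (a : ℤ) (X r q : ℕ) (x z : ℝ) : ℕ :=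
  ((Ioc ⌊x * L X r q⌋₊ ⌊z * L X r q⌋₊).filter (fun k : ℕ => Rough X r (a + (k : ℤ) * q))).card

/-- The integers in `(Z, Z + Y]` prime to all the `a_i`. -/
def Om {s : ℕ} (a : Fin s → ℤ) (Z Y : ℕ) : Finset ℕ :=
  (Ioc Z (Z + Y)).filter (fun q => ∀ i, Nat.Coprime q (a i).natAbs)

/-- The probability that independent Poisson variables with the means `x_i` are in `S`. -/
noncomputable def Poisson {s : ℕ} (x : Fin s → ℝ) (S : Finset (Fin s → ℕ)) : ℝ :=
  ∑ k ∈ S, ∏ i, (Real.exp (-x i) * x i ^ k i / (k i).factorial)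

open Pool.Agent.H373R2.T7 Pool.Agent.TH464.PO Pool.Agent.W123.RP Pool.Agent.W123.RU Pool.Agent.Q236.UL
open Pool.Agent.Q236.FL

lemma V_eq (X r : ℕ) : V X r = Vz ⌊(X : ℝ) ^ (1 / (r : ℝ))⌋₊ := by
  unfold V Vz
  apply Finset.prod_congr _ (fun _ _ => rfl)
  ext p
  rw [mem_pz, mem_filter, mem_Icc]
  exact ⟨fun h => ⟨h.1.2, h.2⟩, fun h => ⟨⟨h.2.one_lt.le, h.1⟩, h.2⟩⟩

lemma mem_pzX (X r p : ℕ) : p ∈ pz ⌊(X : ℝ) ^ (1 / (r : ℝ))⌋₊ ↔ (p : ℝ) ≤ (X : ℝ) ^ (1 / (r : ℝ)) ∧ p.Prime := by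
  rw [mem_pz, Nat.le_floor_iff (by positivity)]

lemma few (X r K : ℕ) (n : ℤ) (hr : 1 ≤ r) (hX : 2 ^ r ≤ X) (hn : n ≠ 0) (hnX : |n| ≤ (X : ℤ) ^ K)
    (h : Rough X r n) : n.natAbs.primeFactorsList.length ≤ K * r := by
  apply few_fac X r K n.natAbs hr hX (Int.natAbs_pos.2 hn)
  · have h1 : ((n.natAbs : ℕ) : ℤ) ≤ ((X ^ K : ℕ) : ℤ) := by
      rw [Int.natCast_natAbs]
      push_cast
      exact hnX
    exact_mod_cast h1
  · intro p hp hd
    by_contra hcon
    rw [not_lt] at hcon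
    exact h p hp hcon (Int.natCast_dvd.2 hd)

/-- **The joint law of the small multipliers, for random moduli and fixed residues.** -/
theorem result :
    (∀ (X r K : ℕ) (n : ℤ), 1 ≤ r → 2 ^ r ≤ X → n ≠ 0 → |n| ≤ (X : ℤ) ^ K → Rough X r n →
      n.natAbs.primeFactorsList.length ≤ K * r) ∧
    ∀ (s : ℕ) (a : Fin s → ℤ), (∀ i, a i ≠ 0) → ∀ Λ ε θ A : ℝ, 0 ≤ Λ → 0 < ε → 0 < θ → 0 < A →
      ∃ r₀ : ℕ, 2 ≤ r₀ ∧ ∀ r : ℕ, r₀ ≤ r → ∀ᶠ X : ℕ in atTop, ∀ x z : Fin s → ℝ,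
        (∀ i, 0 ≤ x i ∧ x i ≤ z i ∧ z i ≤ Λ) → (∀ i j, i ≠ j → a i = a j → z i ≤ x j ∨ z j ≤ x i) →
        ∀ Z Y : ℕ, (X : ℝ) ^ θ ≤ Y → ((Z + Y : ℕ) : ℝ) ≤ (X : ℝ) ^ A → ∀ S : Finset (Fin s → ℕ),
          |(((Om a Z Y).filter (fun q => (fun i => N (a i) X r q (x i) (z i)) ∈ S)).card : ℝ) -
            (Om a Z Y).card * Poisson (fun i => z i - x i) S| ≤ ε * (Om a Z Y).card := by
  classical
  refine ⟨few, ?_⟩
  intro s a ha Λ ε θ A hΛ hε hθ hA
  obtain ⟨C, hH⟩ := Hl_HM a ha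
  obtain ⟨r₀, hr₀, h⟩ := mod_full (Hl a) _ _ _ _ _ C hH Λ ε θ A hΛ hε hθ hA
  refine ⟨r₀, hr₀, ?_⟩
  intro r hr
  have hr2 : 2 ≤ r := hr₀.trans hr
  have hfloor : Tendsto (fun X : ℕ => ⌊(X : ℝ) ^ (1 / (r : ℝ))⌋₊) atTop atTop :=
    tendsto_nat_floor_atTop.comp ((tendsto_rpow_atTop (by positivity)).comp tendsto_natCast_atTop_atTop)
  filter_upwards [h r hr, hfloor.eventually_ge_atTop (ma a)] with X hX hma
  intro x z hxz hsep Z Y hY hZY S
  have h1 := hX x z (fun i => (hxz i).1) (fun i => (hxz i).2.1) (fun i => (hxz i).2.2)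
    (fun i j hij haij => ⟨rfl, hsep i j hij haij⟩) Z Y hY hZY S
  have hΩ : OmY (Pm (Hl a)) ⌊(X : ℝ) ^ (1 / (r : ℝ))⌋₊ Z Y = Om a Z Y := by
    unfold OmY Om
    apply Finset.filter_congr
    intro q _
    constructor
    · intro h2 i
      apply Nat.coprime_of_dvd
      intro p hp h3 h4
      have h5 : p ≤ ma a := (Nat.le_of_dvd (Int.natAbs_pos.2 (ha i)) h4).trans (le_ma a i)
      apply h2 p (mem_pz.2 ⟨h5.trans hma, hp⟩)
      refine ⟨h3, i, ?_⟩
      unfold Hl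
      rw [Nat.cast_zero, add_zero]
      exact Int.natCast_dvd.2 h4
    · rintro h2 p hp ⟨h3, i, h4⟩
      unfold Hl at h4
      rw [Nat.cast_zero, add_zero] at h4
      have h5 := Nat.dvd_gcd h3 (Int.natCast_dvd.1 h4)
      rw [Nat.Coprime.gcd_eq_one (h2 i)] at h5
      exact (mem_pz.1 hp).2.one_lt.ne' (Nat.dvd_one.1 h5)
  rw [hΩ] at h1
  have hN : (Om a Z Y).filter (fun n => (fun t => NF (Fm (Hl a)) ⌊(X : ℝ) ^ (1 / (r : ℝ))⌋₊ t
      (Ioc (wf (Hl a) (fun _ _ => 1) ⌊(X : ℝ) ^ (1 / (r : ℝ))⌋₊ x n t)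
        (wf (Hl a) (fun _ _ => 1) ⌊(X : ℝ) ^ (1 / (r : ℝ))⌋₊ z n t)) n) ∈ S) =
      (Om a Z Y).filter (fun q => (fun i => N (a i) X r q (x i) (z i)) ∈ S) := by
    apply Finset.filter_congr
    intro q hq
    have hq' : ∀ p ∈ pz ⌊(X : ℝ) ^ (1 / (r : ℝ))⌋₊, ¬ Pm (Hl a) p q := by
      have h2 : q ∈ OmY (Pm (Hl a)) ⌊(X : ℝ) ^ (1 / (r : ℝ))⌋₊ Z Y := by
        rw [hΩ]
        exact hq
      unfold OmY at h2
      rw [mem_filter] at h2
      exact h2.2
    have hq0 : q ≠ 0 := by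
      unfold Om at hq
      rw [mem_filter, mem_Ioc] at hq
      omega
    have e : (fun t => NF (Fm (Hl a)) ⌊(X : ℝ) ^ (1 / (r : ℝ))⌋₊ t
      (Ioc (wf (Hl a) (fun _ _ => 1) ⌊(X : ℝ) ^ (1 / (r : ℝ))⌋₊ x q t)
        (wf (Hl a) (fun _ _ => 1) ⌊(X : ℝ) ^ (1 / (r : ℝ))⌋₊ z q t)) q) =
        fun i => N (a i) X r q (x i) (z i) := by
      funext i
      have e1 : ∀ x : Fin s → ℝ, wf (Hl a) (fun _ _ => 1) ⌊(X : ℝ) ^ (1 / (r : ℝ))⌋₊ x q i =
          ⌊x i * L X r q⌋₊ := by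
        intro x
        unfold wf L
        rw [gf_tot (Fin s) i q hq0, Hl_V, V_eq, mul_div_assoc]
      unfold NF N
      rw [e1, e1]
      congr 1
      apply Finset.filter_congr
      intro k _
      unfold Sf Rough
      constructor
      · intro h2 p hp hpX hd
        have hpz := (mem_pzX X r p).2 ⟨hpX, hp⟩
        apply h2 p hpz
        refine ⟨fun h3 => ?_, ?_⟩
        · apply hq' p hpz
          refine ⟨h3, i, ?_⟩
          unfold Hl
          rw [Nat.cast_zero, add_zero]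
          have h4 : (p : ℤ) ∣ (k : ℤ) * q := Dvd.dvd.mul_left (Int.natCast_dvd_natCast.2 h3) _
          exact (dvd_add_left h4).1 hd
        · unfold Hl
          push_cast
          rw [mul_comm]
          exact hd
      · rintro h2 p hpz ⟨_, h3⟩
        obtain ⟨hpX, hp⟩ := (mem_pzX X r p).1 hpz
        apply h2 p hp hpX
        unfold Hl at h3
        push_cast at h3
        rw [mul_comm] at h3
        exact h3
    rw [e]
  rw [hN] at h1
  exact h1

end Pool.Agent.Results.MP_d018b2_nt.FixedResidues
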