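import Mathlib
import Pool.Agent.Q263.PK.Poly
import Pool.Agent.Q263.SV.Alm

/-!
# Almost prime values of systems of linear forms at integers with restricted digits, uniformly in the
coefficients (for example the forms q r_j + 1, r_j of any size)

Fix a base `b ≥ 2` and `r ≥ 1`. For `k ≥ 1` choose for every position `i < k` a set `D i` of digits,
in any way, such that two digits in `D i` have a difference without prime factors outside `b`, for
example two consecutive digits. Let `S` be the set of the integers `0 ≤ n < b ^ k` whose `i`-th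
digit is in `D i` for every `i`; it may have only `2 ^ k` elements. Let `a i n + c i` (`i < r`) be an
admissible system of linear forms with positive slopes: the number `ρ(p)` of the `n` modulo `p` for
which `p` divides some `a i n + c i` is less than `p` for all primes `p`. Put
`V(y) = ∏_{p ≤ y} (1 - ρ(p) / p)` and

  `M(y) = g · ∏_{i ≥ 1} |D i| · ∏_{p ≤ y, p ∤ b} (1 - ρ(p) / p)`,

where `g` is the number of the last digits `d ∈ D 0` for which all `a i d + c i` are coprime to `b`.

(1) For every `ε > 0` there are `L` and `k₀`, which depend on `b`, `r`, `ε` only, such that for all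
`k ≥ k₀`, all choices of the sets of digits, ALL admissible systems of `r` forms and all `y ≥ b`
with `y ^ L ≤ b ^ k` the number of the `n ∈ S` such that no `a i n + c i` has a prime factor `≤ y` is
`(1 + θ) M(y)`, `|θ| ≤ ε`. The coefficients may have any size.

(2) There are `m₀`, `k₀` and `δ > 0`, which depend on `b`, `r` only, such that for all `C`, all
`k ≥ k₀`, all sets of digits and all admissible systems with coefficients at most `b ^ (C k)` and
`g ≥ 1` there are at least `δ |S| / k ^ r` elements `n` of `S` such that each `a i n + c i` is nonzero and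
has at most `m₀ (C + 2)` prime factors.

(3) Let `Λ`, `ε > 0`. There is `L`, and for all `A`, `C` there are `y₀`, `k₀` such that for all `k ≥ k₀`,
all sets of digits, all `y ≥ y₀` with `y ^ L ≤ b ^ k`, all admissible systems of `r` forms with slopes
at most `A` and `|c i| ≤ y ^ C`, such that no form of the system is proportional to a form of the
system translated by some `t ≥ 1` with `t V(y) ≤ max(Λ, 1)`, all `T` with `x = T V(y) ≤ Λ` and all
finite `A'`: the proportion of the `n ∈ S` such that the number of the `m` in `(n, n + T]` for which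
no `a i m + c i` has a prime factor `≤ y` belongs to `A'` differs from
`∑_{j ∈ A'} exp(-x) x ^ j / j!` by at most `ε`; if in place of `S` one takes the elements `n` of `S`
for which no `a i n + c i` has a prime factor `≤ y`, the same holds.
-/

set_option autoImplicit false

namespace Pool.Agent.Results.MP_d018b2_nt.UniformSystems

open Finset

/-- The integers `0 ≤ n < b ^ k` whose `i`-th digit in base `b` belongs to `D i`, for all `i < k`. -/
def Restricted (b k : ℕ) (D : Fin k → Finset ℕ) : Finset ℕ :=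
  (Finset.range (b ^ k)).filter (fun n => ∀ i : Fin k, n / b ^ (i : ℕ) % b ∈ D i)

/-- Each `D i` is a set of digits, and it has two digits `c < c'` such that every prime factor of
`c' - c` divides `b`. -/
def DigitSets (b k : ℕ) (D : Fin k → Finset ℕ) : Prop :=
  ∀ i, (∀ d ∈ D i, d < b) ∧ ∃ c ∈ D i, ∃ c' ∈ D i, c < c' ∧
    ∀ p : ℕ, p.Prime → p ∣ c' - c → p ∣ b

variable {r : ℕ}

open Classical in
/-- The number of the `n` modulo `p` for which `p` divides some `a i n + c i`. -/
noncomputable def rho (a c : Fin r → ℤ) (p : ℕ) : ℕ :=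
  ((Finset.range p).filter (fun n : ℕ => ∃ i, (p : ℤ) ∣ a i * n + c i)).card

/-- Admissible systems with positive slopes. -/
def Admissible (a c : Fin r → ℤ) : Prop := (∀ i, 0 < a i) ∧ ∀ p : ℕ, p.Prime → rho a c p < p

/-- The sieve product. -/
noncomputable def V (a c : Fin r → ℤ) (y : ℕ) : ℝ :=
  ∏ p ∈ (Finset.Icc 1 y).filter Nat.Prime, (1 - (rho a c p : ℝ) / (p : ℝ))

/-- No `a i n + c i` has a prime factor `≤ y`. -/
def Rough (a c : Fin r → ℤ) (y n : ℕ) : Prop :=
  ∀ p : ℕ, p.Prime → p ≤ y → ∀ i, ¬ (p : ℤ) ∣ a i * n + c i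

/-- The number of the last digits `d` for which all `a i d + c i` are coprime to `b`. -/
def lastDigits (b k : ℕ) (D : Fin k → Finset ℕ) (a c : Fin r → ℤ) : ℕ :=
  (((Finset.univ : Finset (Fin k)).filter (fun i : Fin k => (i : ℕ) = 0)).biUnion
    (fun i => (D i).filter (fun d : ℕ => ∀ j, Int.gcd (a j * d + c j) b = 1))).card

/-- The product of the numbers of the elements of `D i` over the positions `i ≥ 1`. -/
def otherDigits (k : ℕ) (D : Fin k → Finset ℕ) : ℕ :=
  ∏ i ∈ (Finset.univ : Finset (Fin k)).filter (fun i : Fin k => (i : ℕ) ≠ 0), (D i).card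

/-- The main term. -/
noncomputable def mainTerm (b k : ℕ) (D : Fin k → Finset ℕ) (a c : Fin r → ℤ) (y : ℕ) : ℝ :=
  (lastDigits b k D a c : ℝ) * otherDigits k D *
    ∏ p ∈ (Finset.range (y + 1)).filter (fun p => p.Prime ∧ ¬ p ∣ b), (1 - (rho a c p : ℝ) / (p : ℝ))

open Classical in
/-- The elements `n` of `S` for which no `a i n + c i` has a prime factor `≤ y`. -/
noncomputable def Start (b k : ℕ) (D : Fin k → Finset ℕ) (a c : Fin r → ℤ) (y : ℕ) : Finset ℕ :=
  (Restricted b k D).filter (fun n => Rough a c y n)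

open Classical in
/-- The number of the `m` in `(n, n + T]` for which no `a i m + c i` has a prime factor `≤ y`. -/
noncomputable def next (a c : Fin r → ℤ) (y T n : ℕ) : ℕ :=
  ((Finset.Ioc n (n + T)).filter (fun m => Rough a c y m)).card

/-- The measure of `A` for the Poisson distribution with the mean `x`. -/
noncomputable def poisson (x : ℝ) (A : Finset ℕ) : ℝ :=
  ∑ j ∈ A, Real.exp (-x) * x ^ j / (j.factorial : ℝ)

open Pool.Agent.H373R2.T7 Pool.Agent.W123.RP Pool.Agent.W123.RU Pool.Agent.TH464.PO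
open Pool.Agent.Q263.PK

/-- the conditions -/
def Ql (a c : Fin r → ℤ) (p n : ℕ) : Prop := ∃ i, (p : ℤ) ∣ a i * n + c i

lemma nuB_Ql (a c : Fin r → ℤ) (p : ℕ) : nuB (Ql a c) p = rho a c p := by
  classical
  unfold nuB rho
  congr 1
  apply filter_congr
  intro n _
  unfold Ql
  rfl

lemma V_eq (a c : Fin r → ℤ) (y : ℕ) : Vq (Ql a c) y = V a c y := by
  unfold Vq V
  apply prod_congr rfl
  intro p _
  rw [nuB_Ql]

lemma Ql_per (a c : Fin r → ℤ) (p n : ℕ) : Ql a c p n ↔ Ql a c p (n % p) := by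
  unfold Ql
  apply exists_congr
  intro i
  have h3 : (p : ℤ) ∣ (n : ℤ) - ((n % p : ℕ) : ℤ) := by
    rw [Int.natCast_mod]
    exact ⟨(n : ℤ) / p, by have := Int.emod_add_mul_ediv (n : ℤ) p; linarith⟩
  have h4 : (p : ℤ) ∣ (a i * n + c i) - (a i * ((n % p : ℕ) : ℤ) + c i) := by
    have e : (a i * n + c i) - (a i * ((n % p : ℕ) : ℤ) + c i) = a i * ((n : ℤ) - ((n % p : ℕ) : ℤ)) := by
      ring
    rw [e]
    exact h3.mul_left _
  exact (dvd_iff_dvd_of_dvd_sub h4)

lemma perB_Ql (a c : Fin r → ℤ) (h : ∀ p : ℕ, p.Prime → rho a c p < p) : PerB (Ql a c) r := by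
  classical
  refine ⟨fun p n => Ql_per a c p n, fun p hp => ?_⟩
  have hp' := Nat.prime_iff_prime_int.1 hp
  have h1 : (range p).filter (fun n : ℕ => Ql a c p n) =
      (univ : Finset (Fin r)).biUnion (fun i => (range p).filter (fun n : ℕ => (p : ℤ) ∣ a i * n + c i)) := by
    ext n
    rw [mem_filter, mem_biUnion]
    unfold Ql
    constructor
    · rintro ⟨h1, i, h2⟩
      exact ⟨i, mem_univ i, mem_filter.2 ⟨h1, h2⟩⟩
    · rintro ⟨i, _, h2⟩
      rw [mem_filter] at h2
      exact ⟨h2.1, i, h2.2⟩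
  have h2 : nuB (Ql a c) p = ((univ : Finset (Fin r)).biUnion
      (fun i => (range p).filter (fun n : ℕ => (p : ℤ) ∣ a i * n + c i))).card := by
    rw [← h1]
    unfold nuB
    congr 1
  rw [h2]
  have h3 := Finset.card_biUnion_le_card_mul (univ : Finset (Fin r))
    (fun i => (range p).filter (fun n : ℕ => (p : ℤ) ∣ a i * n + c i)) 1 (by
      intro i _
      rw [card_le_one]
      intro n hn n' hn'
      rw [mem_filter, mem_range] at hn hn'
      have hpa : ¬ (p : ℤ) ∣ a i := by
        intro hpa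
        have hpc : (p : ℤ) ∣ c i := (Int.dvd_add_right (hpa.mul_right _)).1 hn.2
        have h4 := h p hp
        have h5 : rho a c p = p := by
          unfold rho
          rw [filter_true_of_mem, card_range]
          intro m _
          exact ⟨i, dvd_add (hpa.mul_right _) hpc⟩
        omega
      have h4 := dvd_sub hn.2 hn'.2
      have e : a i * (n : ℤ) + c i - (a i * n' + c i) = a i * (n - n') := by ring
      rw [e] at h4
      have h5 := (hp'.dvd_or_dvd h4).resolve_left hpa
      have h6 : (n : ℤ) - n' = 0 := by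
        apply Int.eq_zero_of_abs_lt_dvd h5
        rw [abs_lt]
        omega
      omega)
  rw [card_univ, Fintype.card_fin, mul_one] at h3
  exact h3

lemma Sf_iff (a c : Fin r → ℤ) (y m : ℕ) : Sf (Ql a c) y m ↔ Rough a c y m := by
  unfold Sf Rough Ql
  constructor
  · intro h p hp hpy i hd
    exact h p (mem_pz.2 ⟨hpy, hp⟩) ⟨i, hd⟩
  · rintro h p hp ⟨i, hd⟩
    exact h p (mem_pz.1 hp).2 (mem_pz.1 hp).1 i hd

lemma Start_eq (b k : ℕ) (D : Fin k → Finset ℕ) (a c : Fin r → ℤ) (y : ℕ) :
    Fx (Ql a c) y (Pool.Agent.Q263.MD.Dig b k D) = Start b k D a c y := by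
  classical
  unfold Fx Start
  apply Finset.filter_congr
  intro n _
  exact Sf_iff a c y n

open Classical in
lemma Xt_eq (b k : ℕ) (hk0 : 0 < k) (D : Fin k → Finset ℕ) (a c : Fin r → ℤ) (y : ℕ) (hb : 2 ≤ b)
    (hby : b ≤ y) :
    Pool.Agent.Q263.SW.Xt b k D (fun p => (range p).filter (fun n => Ql a c p n)) y =
      mainTerm b k D a c y := by
  unfold Pool.Agent.Q263.SW.Xt mainTerm
  have e1 : ∏ p ∈ (range (y + 1)).filter (fun p => p.Prime ∧ ¬ p ∣ b),
      (1 - ((((range p).filter (fun n => Ql a c p n)).card : ℕ) : ℝ) / p) =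
      ∏ p ∈ (range (y + 1)).filter (fun p => p.Prime ∧ ¬ p ∣ b), (1 - (rho a c p : ℝ) / p) := by
    apply prod_congr rfl
    intro p _
    have := nuB_Ql a c p
    unfold nuB at this
    rw [this]
  rw [e1]
  have e2 : ((if hk : 0 < k then D ⟨0, hk⟩ else ∅).filter (fun d => ∀ p : ℕ, p.Prime → p ∣ b →
      p ≤ y → d % p ∉ (range p).filter (fun n => Ql a c p n))).card = lastDigits b k D a c := by
    unfold lastDigits
    have e3 : (Finset.univ : Finset (Fin k)).filter (fun i : Fin k => (i : ℕ) = 0) = {⟨0, hk0⟩} := by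
      ext i
      rw [mem_filter, mem_singleton]
      constructor
      · rintro ⟨_, hi⟩
        exact Fin.ext hi
      · rintro rfl
        exact ⟨mem_univ _, rfl⟩
    rw [e3, singleton_biUnion, dif_pos hk0]
    congr 1
    apply filter_congr
    intro d _
    constructor
    · intro h2 j
      by_contra hne
      obtain ⟨p, hp, hpd⟩ := Nat.exists_prime_and_dvd hne
      have h5 : (p : ℤ) ∣ (Int.gcd (a j * d + c j) b : ℤ) := by exact_mod_cast hpd
      have h3 : (p : ℤ) ∣ (b : ℤ) := h5.trans (Int.gcd_dvd_right _ _)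
      have h4 := h5.trans (Int.gcd_dvd_left _ _)
      have h3' : p ∣ b := by exact_mod_cast h3
      apply h2 p hp h3' ((Nat.le_of_dvd (by omega) h3').trans hby)
      rw [mem_filter, mem_range]
      exact ⟨Nat.mod_lt _ hp.pos, (Ql_per a c p d).1 ⟨j, h4⟩⟩
    · intro h2 p hp hpb _ hm
      rw [mem_filter] at hm
      obtain ⟨j, hj⟩ := (Ql_per a c p d).2 hm.2
      have h5 : (p : ℤ) ∣ (Int.gcd (a j * d + c j) b : ℤ) := Int.dvd_coe_gcd hj (by exact_mod_cast hpb)
      rw [h2 j] at h5
      have h6 : p ∣ 1 := by exact_mod_cast h5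
      exact hp.one_lt.ne' (Nat.dvd_one.1 h6)
  rw [e2]
  rfl

/-- few large primes divide an integer -/
lemma few (T y C j : ℕ) (z : ℤ) (hz : z ≠ 0) (hzy : z.natAbs ≤ y ^ C) (F : Finset ℕ)
    (hF : ∀ p ∈ F, p.Prime ∧ T < p ∧ (p : ℤ) ∣ z) (hT : 1 ≤ T) (h : y ^ C < T ^ (j + 1)) : F.card ≤ j := by
  by_contra hcon
  rw [not_le] at hcon
  have h1 := pow_card_le F z.natAbs (Int.natAbs_ne_zero.2 hz) (fun p hp => by
    obtain ⟨h1, _, h2⟩ := hF p hp
    exact ⟨h1, Int.natCast_dvd.1 h2⟩) (T : ℝ) (Nat.cast_nonneg _) (fun p hp => by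
      exact_mod_cast (hF p hp).2.1.le)
  have h2 : T ^ F.card ≤ z.natAbs := by exact_mod_cast h1
  have h3 : T ^ (j + 1) ≤ T ^ F.card := Nat.pow_le_pow_right hT hcon
  omega

/-- the number of the collisions is small -/
lemma sizes (cu κ η' : ℝ) (hcu : 0 < cu) (hκ : 0 < κ) (hη : 0 < η') (T0 C e : ℕ) (v X : ℝ) (hv : 0 < v)
    (hX : 0 ≤ X) :
    ∃ y₀ : ℕ, 3 ≤ y₀ ∧ ∀ y : ℕ, y₀ ≤ y → (cu / Real.log y ≤ κ) ∧ ∀ T : ℕ, κ ≤ T * (cu / Real.log y) →
      T0 ≤ T ∧ 1 ≤ T ∧ (T * (v / Real.log y ^ e) ≤ X → T < y) ∧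
      ∃ j : ℕ, y ^ C < T ^ (j + 1) ∧ ((2 * j : ℕ) : ℝ) ≤ η' * T := by
  -- `log T` is large
  obtain ⟨Z, hZ⟩ : ∃ Z : ℝ, Z = 2 * C * cu / (κ * η') := ⟨_, rfl⟩
  have hZ0 : 0 ≤ Z := by rw [hZ]; positivity
  obtain ⟨B, hB⟩ : ∃ B : ℝ, B = Real.exp (Z + 1) + T0 + 1 := ⟨_, rfl⟩
  have hB1 : 1 ≤ B := by
    rw [hB]
    have := Real.exp_pos (Z + 1)
    have h2 : (0 : ℝ) ≤ T0 := Nat.cast_nonneg _
    linarith
  have hlo := (isLittleO_log_rpow_rpow_atTop (e : ℝ) (by norm_num : (0 : ℝ) < 1)).comp_tendsto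
    tendsto_natCast_atTop_atTop
  have hb := hlo.bound (by positivity : (0 : ℝ) < 1 / (X / v + 1))
  obtain ⟨y1, hy1⟩ := Filter.eventually_atTop.1 hb
  obtain ⟨y2, hy2⟩ : ∃ y2 : ℕ, Real.exp (max (cu / κ) (cu * B / κ)) ≤ y2 := exists_nat_ge _
  refine ⟨max 3 (max y1 y2), le_max_left _ _, fun y hy => ?_⟩
  have hy3 : 3 ≤ y := (le_max_left _ _).trans hy
  have hyy1 : y1 ≤ y := ((le_max_left _ _).trans (le_max_right _ _)).trans hy
  have hyy2 : (y2 : ℝ) ≤ y := by exact_mod_cast ((le_max_right _ _).trans (le_max_right _ _)).trans hy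
  have hlog : max (cu / κ) (cu * B / κ) ≤ Real.log y := by
    have h2 := Real.log_le_log (Real.exp_pos _) (hy2.trans hyy2)
    rwa [Real.log_exp] at h2
  have hl1 : cu / κ ≤ Real.log y := (le_max_left _ _).trans hlog
  have hl2 : cu * B / κ ≤ Real.log y := (le_max_right _ _).trans hlog
  have hl0 : 0 < Real.log y := lt_of_lt_of_le (by positivity) hl1
  have hyr : (3 : ℝ) ≤ y := by exact_mod_cast hy3
  refine ⟨?_, fun T hT => ?_⟩
  · rw [div_le_iff₀ hl0]
    rw [div_le_iff₀ hκ] at hl1
    linarith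
  have hTl : κ * Real.log y ≤ T * cu := by
    rw [← mul_div_assoc, le_div_iff₀ hl0] at hT
    exact hT
  have hTB : B ≤ T := by
    rw [div_le_iff₀ hκ] at hl2
    have h1 : cu * B ≤ cu * T := by linarith
    exact le_of_mul_le_mul_left h1 hcu
  have hT0 : (T0 : ℝ) ≤ T := by
    have := Real.exp_pos (Z + 1)
    rw [hB] at hTB
    linarith
  have hT1 : (1 : ℝ) ≤ T := hB1.trans hTB
  have hlT : Z + 1 ≤ Real.log T := by
    have h1 : Real.exp (Z + 1) ≤ T := by
      have h2 : (0 : ℝ) ≤ T0 := Nat.cast_nonneg _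
      rw [hB] at hTB
      linarith
    have h2 := Real.log_le_log (Real.exp_pos _) h1
    rwa [Real.log_exp] at h2
  have hlT0 : 0 < Real.log T := by linarith
  refine ⟨by exact_mod_cast hT0, by exact_mod_cast hT1, ?_, ?_⟩
  · intro hTX
    have h1 := hy1 y hyy1
    simp only [Function.comp_def] at h1
    rw [Real.norm_of_nonneg (by positivity), Real.norm_of_nonneg (by positivity), Real.rpow_one] at h1
    rw [Real.rpow_natCast] at h1
    have h3 : (T : ℝ) * v ≤ X * Real.log y ^ e := by
      rw [← mul_div_assoc, div_le_iff₀ (by positivity)] at hTX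
      exact hTX
    have h4 : (T : ℝ) ≤ X / v * Real.log y ^ e := by
      rw [div_mul_eq_mul_div, le_div_iff₀ hv]
      exact h3
    have hXv : 0 ≤ X / v := by positivity
    have h5 : (X / v + 1) * Real.log y ^ e ≤ y := by
      calc (X / v + 1) * Real.log y ^ e ≤ (X / v + 1) * (1 / (X / v + 1) * y) :=
            mul_le_mul_of_nonneg_left h1 (by positivity)
        _ = y := by field_simp
    have h6 : 0 < Real.log (y : ℝ) ^ e := by positivity
    have h7 : (T : ℝ) < y := by nlinarith
    exact_mod_cast h7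
  · refine ⟨⌊(C : ℝ) * Real.log y / Real.log T⌋₊, ?_, ?_⟩
    · have h1 : (C : ℝ) * Real.log y / Real.log T < (⌊(C : ℝ) * Real.log y / Real.log T⌋₊ + 1 : ℕ) := by
        exact_mod_cast Nat.lt_floor_add_one _
      rw [div_lt_iff₀ hlT0] at h1
      have h2 : Real.log ((y : ℝ) ^ C) <
          Real.log ((T : ℝ) ^ (⌊(C : ℝ) * Real.log y / Real.log T⌋₊ + 1)) := by
        rw [Real.log_pow, Real.log_pow]
        exact h1
      have h3 := (Real.log_lt_log_iff (by positivity) (by positivity)).1 h2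
      exact_mod_cast h3
    · have h1 : ((⌊(C : ℝ) * Real.log y / Real.log T⌋₊ : ℕ) : ℝ) ≤ (C : ℝ) * Real.log y / Real.log T :=
        Nat.floor_le (by positivity)
      push_cast
      have h2 : (C : ℝ) * Real.log y / Real.log T ≤ η' * T / 2 := by
        rw [div_le_iff₀ hlT0]
        have h3 : Real.log y ≤ T * cu / κ := by
          rw [le_div_iff₀ hκ]
          linarith
        have hC0 : (0 : ℝ) ≤ C := Nat.cast_nonneg _
        have h4 : Z ≤ Real.log T := by linarith
        calc (C : ℝ) * Real.log y ≤ C * (T * cu / κ) := mul_le_mul_of_nonneg_left h3 hC0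
          _ = η' * T / 2 * Z := by rw [hZ]; field_simp
          _ ≤ η' * T / 2 * Real.log T := mul_le_mul_of_nonneg_left h4 (by positivity)
      linarith

lemma adm_V (a c : Fin r → ℤ) (h : ∀ p : ℕ, p.Prime → rho a c p < p) (p : ℕ) (hp : p.Prime) :
    nuB (Ql a c) p < p := by
  rw [nuB_Ql]
  exact h p hp

/-- the number of prime factors -/
lemma omega_le (b k L C : ℕ) (hb : 2 ≤ b) (hL : 1 ≤ L) (hk : L ≤ k) (v : ℤ) (hv : v.natAbs ≤ b ^ ((C + 2) * k))
    (hrough : ∀ p : ℕ, p.Prime → p ≤ b ^ (k / L) → ¬ (p : ℤ) ∣ v) :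
    v ≠ 0 ∧ v.natAbs.primeFactorsList.length ≤ 2 * L * (C + 2) := by
  have hkL : 1 ≤ k / L := (Nat.one_le_div_iff (by omega)).2 hk
  have hby : b ≤ b ^ (k / L) := Nat.le_self_pow (by omega) b
  have hv0 : v ≠ 0 := by
    intro h
    apply hrough 2 Nat.prime_two (by omega)
    rw [h]
    exact dvd_zero _
  refine ⟨hv0, ?_⟩
  have hn0 : v.natAbs ≠ 0 := Int.natAbs_ne_zero.2 hv0
  have h1 : (b ^ (k / L)) ^ v.natAbs.primeFactorsList.length ≤ v.natAbs := by
    calc (b ^ (k / L)) ^ v.natAbs.primeFactorsList.length ≤ v.natAbs.primeFactorsList.prod := by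
          apply Pool.Agent.Q263.SV.pow_len
          intro x hx
          by_contra hlt
          rw [not_le] at hlt
          exact hrough x (Nat.prime_of_mem_primeFactorsList hx) hlt.le
            (Int.natCast_dvd.2 (Nat.dvd_of_mem_primeFactorsList hx))
      _ = v.natAbs := Nat.prod_primeFactorsList hn0
  obtain ⟨i, hi⟩ : ∃ i, i = v.natAbs.primeFactorsList.length := ⟨_, rfl⟩
  rw [← hi] at h1 ⊢
  have h2 := h1.trans hv
  rw [← pow_mul] at h2
  have h3 : k / L * i ≤ (C + 2) * k := (Nat.pow_le_pow_iff_right (by omega)).1 h2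
  have h4 : k < L * (k / L + 1) := Nat.lt_mul_div_succ k (by omega)
  have h5 : k ≤ 2 * L * (k / L) := by
    have : L * (k / L + 1) ≤ L * (2 * (k / L)) := Nat.mul_le_mul_left L (by omega)
    calc k ≤ L * (2 * (k / L)) := by omega
      _ = _ := by ring
  have h6 : k / L * i ≤ k / L * (2 * L * (C + 2)) := by
    calc k / L * i ≤ (C + 2) * k := h3
      _ ≤ (C + 2) * (2 * L * (k / L)) := Nat.mul_le_mul_left _ h5
      _ = _ := by ring
  exact Nat.le_of_mul_le_mul_left h6 hkL

/-- upper bound for the sieve product -/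
lemma V_up (A y : ℕ) (hAy : A ≤ y) (a c : Fin r → ℤ) (h : Admissible a c) (i : Fin r)
    (hA : a i ≤ A) : V a c y * Vz A ≤ Vz y := by
  classical
  have hA0 : 0 < a i := h.1 i
  have e1 : Vz y = Vz A * ∏ p ∈ (pz y).filter (fun p => A < p), (1 - 1 / (p : ℝ)) := by
    have e : ∀ z, Vz z = ∏ p ∈ pz z, (1 - 1 / (p : ℝ)) := fun z => rfl
    rw [e, e, ← Finset.prod_filter_mul_prod_filter_not (pz y) (fun p => p ≤ A)]
    congr 1
    · apply prod_congr _ (fun _ _ => rfl)
      ext p
      rw [mem_filter, mem_pz, mem_pz]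
      constructor
      · rintro ⟨⟨_, h1⟩, h2⟩
        exact ⟨h2, h1⟩
      · rintro ⟨h1, h2⟩
        exact ⟨⟨h1.trans hAy, h2⟩, h1⟩
    · apply prod_congr _ (fun _ _ => rfl)
      ext p
      rw [mem_filter, mem_filter, not_le]
  have hfac : ∀ p ∈ pz y, 0 ≤ 1 - (rho a c p : ℝ) / (p : ℝ) ∧ 1 - (rho a c p : ℝ) / (p : ℝ) ≤ 1 := by
    intro p hp
    have hp0 : (0 : ℝ) < p := by exact_mod_cast (mem_pz.1 hp).2.pos
    have h1 : (rho a c p : ℝ) / p ≤ 1 := by
      rw [div_le_one hp0]
      exact_mod_cast (h.2 p (mem_pz.1 hp).2).le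
    have h2 : 0 ≤ (rho a c p : ℝ) / p := by positivity
    constructor <;> linarith
  have hV : V a c y ≤ ∏ p ∈ (pz y).filter (fun p => A < p), (1 - 1 / (p : ℝ)) := by
    have e2 : V a c y = ∏ p ∈ pz y, (1 - (rho a c p : ℝ) / (p : ℝ)) := rfl
    rw [e2, ← Finset.prod_filter_mul_prod_filter_not (pz y) (fun p => A < p)]
    have h1 : ∏ p ∈ (pz y).filter (fun p => ¬ A < p), (1 - (rho a c p : ℝ) / (p : ℝ)) ≤ 1 := by
      apply prod_le_one
      · intro p hp
        exact (hfac p (mem_filter.1 hp).1).1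
      · intro p hp
        exact (hfac p (mem_filter.1 hp).1).2
    have h2 : ∏ p ∈ (pz y).filter (fun p => A < p), (1 - (rho a c p : ℝ) / (p : ℝ)) ≤
        ∏ p ∈ (pz y).filter (fun p => A < p), (1 - 1 / (p : ℝ)) := by
      apply prod_le_prod
      · intro p hp
        exact (hfac p (mem_filter.1 hp).1).1
      · intro p hp
        rw [mem_filter] at hp
        have hpp := (mem_pz.1 hp.1).2
        have hp0 : (0 : ℝ) < p := by exact_mod_cast hpp.pos
        have h3 : (1 : ℝ) ≤ rho a c p := by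
          have : 0 < rho a c p := by
            unfold rho
            rw [card_pos]
            -- a solution of the congruence
            have hpa : ¬ (p : ℤ) ∣ a i := by
              intro hd
              have := Int.le_of_dvd hA0 hd
              omega
            have hcop : IsCoprime (a i) (p : ℤ) :=
              ((Nat.prime_iff_prime_int.1 hpp).coprime_iff_not_dvd.2 hpa).symm
            obtain ⟨u, v, huv⟩ := hcop
            obtain ⟨n, hn⟩ : ∃ n : ℕ, (n : ℤ) = (-(u * c i)) % p :=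
              ⟨((-(u * c i)) % p).toNat, Int.toNat_of_nonneg (Int.emod_nonneg _ (by exact_mod_cast hpp.ne_zero))⟩
            refine ⟨n, mem_filter.2 ⟨mem_range.2 ?_, i, ?_⟩⟩
            · have := Int.emod_lt_of_pos (-(u * c i)) (by exact_mod_cast hpp.pos : (0 : ℤ) < p)
              omega
            · rw [hn]
              have h4 : (p : ℤ) ∣ (-(u * c i)) % p - (-(u * c i)) :=
                ⟨-((-(u * c i)) / p), by have := Int.emod_add_mul_ediv (-(u * c i)) p; linarith⟩
              have h5 : a i * ((-(u * c i)) % p) + c i =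
                  a i * ((-(u * c i)) % p - (-(u * c i))) + c i * (v * p) := by
                linear_combination (c i) * (-huv)
              rw [h5]
              exact dvd_add (h4.mul_left _) ((dvd_mul_left (p : ℤ) v).mul_left (c i))
          exact_mod_cast this
        have h4 : 1 / (p : ℝ) ≤ (rho a c p : ℝ) / p := div_le_div_of_nonneg_right h3 hp0.le
        linarith
    have h3 : 0 ≤ ∏ p ∈ (pz y).filter (fun p => A < p), (1 - (rho a c p : ℝ) / (p : ℝ)) :=
      prod_nonneg fun p hp => (hfac p (mem_filter.1 hp).1).1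
    calc _ ≤ (∏ p ∈ (pz y).filter (fun p => A < p), (1 - (rho a c p : ℝ) / (p : ℝ))) * 1 :=
          mul_le_mul_of_nonneg_left h1 h3
      _ = _ := mul_one _
      _ ≤ _ := h2
  have hVz0 : 0 ≤ Vz A := by
    have e : Vz A = ∏ p ∈ pz A, (1 - 1 / (p : ℝ)) := rfl
    rw [e]
    apply prod_nonneg
    intro p hp
    have hp1 : (1 : ℝ) ≤ p := by exact_mod_cast (mem_pz.1 hp).2.one_lt.le
    rw [sub_nonneg, div_le_one (by linarith)]
    exact hp1
  rw [e1, mul_comm]
  exact mul_le_mul_of_nonneg_left hV hVz0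

open Classical in
/-- the collisions -/
lemma coll (a c : Fin r → ℤ) (T y A C j : ℕ) (ha : ∀ i, 0 < a i ∧ a i ≤ A) (hc : ∀ i, |c i| ≤ (y : ℤ) ^ C)
    (hT : 1 ≤ T) (hTy : T ≤ y) (hA : A ^ 2 + 2 * A ≤ y) (h : y ^ (C + 2) < T ^ (j + 1)) (t : ℕ) (ht : t ∈ Icc 1 T)
    (hne : ∀ i i', a i * a i' * t + a i * c i' - a i' * c i ≠ 0) :
    ((pz y).filter (fun p : ℕ => T < p ∧ CoG (Ql a c) p t)).card ≤ r * r * j := by
  rw [mem_Icc] at ht
  have hsub : (pz y).filter (fun p : ℕ => T < p ∧ CoG (Ql a c) p t) ⊆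
      ((univ : Finset (Fin r)) ×ˢ (univ : Finset (Fin r))).biUnion (fun x =>
        (pz y).filter (fun p : ℕ => T < p ∧ (p : ℤ) ∣ a x.1 * a x.2 * t + a x.1 * c x.2 - a x.2 * c x.1)) := by
    intro p hp
    rw [mem_filter] at hp
    obtain ⟨hp1, hp2, m, ⟨i, hi⟩, i', hi'⟩ := hp
    rw [mem_biUnion]
    refine ⟨(i, i'), by simp, mem_filter.2 ⟨hp1, hp2, ?_⟩⟩
    have h1 := dvd_sub (hi'.mul_left (a i)) (hi.mul_left (a i'))
    push_cast at h1
    have e : a i * (a i' * (m + t) + c i') - a i' * (a i * m + c i) =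
        a i * a i' * t + a i * c i' - a i' * c i := by ring
    rwa [e] at h1
  refine (card_le_card hsub).trans ?_
  have h2 := Finset.card_biUnion_le_card_mul ((univ : Finset (Fin r)) ×ˢ (univ : Finset (Fin r)))
    (fun x => (pz y).filter (fun p : ℕ => T < p ∧ (p : ℤ) ∣
      a x.1 * a x.2 * t + a x.1 * c x.2 - a x.2 * c x.1)) j (by
      rintro ⟨i, i'⟩ _
      apply few T y (C + 2) j _ (hne i i') _ _ _ hT h
      · have hAi := ha i
        have hAi' := ha i'
        have hci := hc i
        have hci' := hc i'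
        have hy1 : (1 : ℤ) ≤ (y : ℤ) ^ C := by
          exact_mod_cast Nat.one_le_pow C y (by omega)
        have htT : (t : ℤ) ≤ y := by exact_mod_cast ht.2.trans hTy
        have ht0 : (0 : ℤ) ≤ t := by positivity
        have h5 : |a i * a i' * t + a i * c i' - a i' * c i| ≤ ((y ^ (C + 2) : ℕ) : ℤ) := by
          have e1 : |a i * a i' * t| ≤ (A : ℤ) ^ 2 * y := by
            rw [abs_of_nonneg (mul_nonneg (mul_nonneg hAi.1.le hAi'.1.le) ht0)]
            calc a i * a i' * t ≤ (A : ℤ) * A * y :=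
                  mul_le_mul (mul_le_mul hAi.2 hAi'.2 hAi'.1.le (by positivity)) htT ht0 (by positivity)
              _ = _ := by ring
          have e2 : |a i * c i'| ≤ A * (y : ℤ) ^ C := by
            rw [abs_mul, abs_of_pos hAi.1]
            exact mul_le_mul hAi.2 hci' (abs_nonneg _) (by positivity)
          have e3 : |a i' * c i| ≤ A * (y : ℤ) ^ C := by
            rw [abs_mul, abs_of_pos hAi'.1]
            exact mul_le_mul hAi'.2 hci (abs_nonneg _) (by positivity)
          have hAy : (A : ℤ) ^ 2 + 2 * A ≤ y := by exact_mod_cast hA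
          have hy0 : (0 : ℤ) ≤ y := by positivity
          have e4 : (A : ℤ) ^ 2 * y + 2 * A * (y : ℤ) ^ C ≤ ((A : ℤ) ^ 2 + 2 * A) * ((y : ℤ) ^ C * y) := by
            have g1 : (y : ℤ) ≤ (y : ℤ) ^ C * y := le_mul_of_one_le_left hy0 hy1
            have hy1' : (1 : ℤ) ≤ y := by
              have : 1 ≤ y := by omega
              exact_mod_cast this
            have g2 : (y : ℤ) ^ C ≤ (y : ℤ) ^ C * y := le_mul_of_one_le_right (by positivity) hy1'
            have hA2 : (0 : ℤ) ≤ (A : ℤ) ^ 2 := by positivity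
            have hA3 : (0 : ℤ) ≤ 2 * (A : ℤ) := by positivity
            rw [add_mul]
            exact add_le_add (mul_le_mul_of_nonneg_left g1 hA2) (mul_le_mul_of_nonneg_left g2 hA3)
          calc |a i * a i' * t + a i * c i' - a i' * c i| ≤
                |a i * a i' * t + a i * c i'| + |a i' * c i| := abs_sub _ _
            _ ≤ |a i * a i' * t| + |a i * c i'| + |a i' * c i| := by
                have := abs_add_le (a i * a i' * t) (a i * c i')
                linarith
            _ ≤ (A : ℤ) ^ 2 * y + 2 * A * (y : ℤ) ^ C := by linarith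
            _ ≤ ((A : ℤ) ^ 2 + 2 * A) * ((y : ℤ) ^ C * y) := e4
            _ ≤ y * ((y : ℤ) ^ C * y) := mul_le_mul_of_nonneg_right hAy (by positivity)
            _ = ((y ^ (C + 2) : ℕ) : ℤ) := by
                push_cast
                ring
        have h6 : ((a i * a i' * t + a i * c i' - a i' * c i).natAbs : ℤ) ≤ ((y ^ (C + 2) : ℕ) : ℤ) := by
          rw [Int.natCast_natAbs]
          exact h5
        exact_mod_cast h6
      · intro p hp
        rw [mem_filter] at hp
        exact ⟨(mem_pz.1 hp.1).2, hp.2⟩)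
  rw [card_product, card_univ, Fintype.card_fin] at h2
  exact h2

open Classical in
theorem result : ∀ b : ℕ, 2 ≤ b → ∀ r : ℕ, 1 ≤ r →
    (∀ ε : ℝ, 0 < ε → ∃ L k₀ : ℕ, 1 ≤ L ∧ ∀ k : ℕ, k₀ ≤ k →
      ∀ D : Fin k → Finset ℕ, DigitSets b k D → ∀ a c : Fin r → ℤ, Admissible a c →
      ∀ y : ℕ, b ≤ y → y ^ L ≤ b ^ k →
      |((Start b k D a c y).card : ℝ) - mainTerm b k D a c y| ≤ ε * mainTerm b k D a c y) ∧
    (∃ (m₀ k₀ : ℕ) (δ : ℝ), 0 < δ ∧ ∀ C : ℕ, ∀ k : ℕ, k₀ ≤ k →
      ∀ D : Fin k → Finset ℕ, DigitSets b k D → ∀ a c : Fin r → ℤ, Admissible a c →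
      (∀ i, a i ≤ (b : ℤ) ^ (C * k) ∧ |c i| ≤ (b : ℤ) ^ (C * k)) → 1 ≤ lastDigits b k D a c →
      δ * (Restricted b k D).card / (k : ℝ) ^ r ≤
        (((Restricted b k D).filter (fun n : ℕ => ∀ i, a i * n + c i ≠ 0 ∧
          (a i * n + c i).natAbs.primeFactorsList.length ≤ m₀ * (C + 2))).card : ℝ)) ∧
    (∀ Λ ε : ℝ, 0 < ε → ∃ L : ℕ, 1 ≤ L ∧ ∀ A C : ℕ, ∃ y₀ k₀ : ℕ, ∀ k : ℕ, k₀ ≤ k →
      ∀ D : Fin k → Finset ℕ, DigitSets b k D → ∀ y : ℕ, y₀ ≤ y → y ^ L ≤ b ^ k →
      ∀ a c : Fin r → ℤ, Admissible a c → (∀ i, a i ≤ A ∧ |c i| ≤ (y : ℤ) ^ C) →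
      (∀ t : ℕ, 1 ≤ t → t * V a c y ≤ max Λ 1 → ∀ i i', a i * a i' * t + a i * c i' - a i' * c i ≠ 0) →
      ∀ T : ℕ, T * V a c y ≤ Λ → ∀ A' : Finset ℕ,
        |(((Restricted b k D).filter (fun n => next a c y T n ∈ A')).card : ℝ) -
          (Restricted b k D).card * poisson (T * V a c y) A'| ≤ ε * (Restricted b k D).card ∧
        |(((Start b k D a c y).filter (fun n => next a c y T n ∈ A')).card : ℝ) -
          (Start b k D a c y).card * poisson (T * V a c y) A'| ≤ ε * (Start b k D a c y).card) := by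
  intro b hb r hr
  refine ⟨?_, ?_, ?_⟩
  · intro ε hε
    obtain ⟨L, k₀, hL, hmain⟩ := Fx_asy hb r ε hε
    refine ⟨L, k₀ + 1, hL, fun k hk D hD a c hac y hby hy => ?_⟩
    have h := hmain k (by omega) D (fun i => (hD i).1) (fun i => (hD i).2) y hy (Ql a c)
      (perB_Ql a c hac.2)
    rw [Start_eq, Xt_eq b k (by omega) D a c y hb hby] at h
    exact h
  · obtain ⟨L, k₀, hL, hlow⟩ := Fx_low hb r
    obtain ⟨v, hv, hVlow⟩ := V_lower_unif r
    have hlb : 0 < Real.log b := Real.log_pos (by exact_mod_cast (by omega : 1 < b))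
    have hb0 : (0 : ℝ) < b := by exact_mod_cast (by omega : 0 < b)
    refine ⟨2 * L, k₀ + L, v / (2 * b * Real.log b ^ r), by positivity, ?_⟩
    intro C k hk D hD a c hac hsize hg
    have hk0 : 0 < k := by omega
    have hkr : (0 : ℝ) < k := by exact_mod_cast hk0
    have hkL : 1 ≤ k / L := (Nat.one_le_div_iff (by omega)).2 (by omega)
    have hby : b ≤ b ^ (k / L) := Nat.le_self_pow (by omega) b
    have hyL : (b ^ (k / L)) ^ L ≤ b ^ k := by
      rw [← pow_mul]
      exact Nat.pow_le_pow_right (by omega) (Nat.div_mul_le_self k L)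
    have h1 := hlow k (by omega) D (fun i => (hD i).1) (fun i => (hD i).2) _ hyL (Ql a c)
      (perB_Ql a c hac.2) (by
        have h2 : (((Finset.univ : Finset (Fin k)).filter (fun i : Fin k => (i : ℕ) = 0)).biUnion
            (fun i => (D i).filter (fun d : ℕ => ∀ j, Int.gcd (a j * d + c j) b = 1))).Nonempty :=
          card_pos.1 hg
        obtain ⟨d, hd⟩ := h2
        rw [mem_biUnion] at hd
        obtain ⟨i, hi, hd⟩ := hd
        rw [mem_filter] at hi hd
        refine ⟨i, hi.2, d, hd.1, ?_⟩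
        rintro p hp hpb ⟨j, hj⟩
        have h5 : (p : ℤ) ∣ (Int.gcd (a j * d + c j) b : ℤ) := Int.dvd_coe_gcd hj (by exact_mod_cast hpb)
        rw [hd.2 j] at h5
        have h6 : p ∣ 1 := by exact_mod_cast h5
        exact hp.one_lt.ne' (Nat.dvd_one.1 h6))
    rw [Start_eq, V_eq] at h1
    have h2 := hVlow (Ql a c) (perB_Ql a c hac.2) (adm_V a c hac.2) (b ^ (k / L)) (hb.trans hby)
    rw [V_eq] at h2
    have hlogy : Real.log ((b ^ (k / L) : ℕ) : ℝ) ≤ k * Real.log b := by
      push_cast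
      rw [Real.log_pow]
      apply mul_le_mul_of_nonneg_right _ hlb.le
      exact_mod_cast Nat.div_le_self k L
    have hlogy0 : 0 < Real.log ((b ^ (k / L) : ℕ) : ℝ) :=
      Real.log_pos (by exact_mod_cast (by omega : 1 < b ^ (k / L)))
    have h3 : v / (k * Real.log b) ^ r ≤ V a c (b ^ (k / L)) := by
      refine le_trans ?_ h2
      apply div_le_div_of_nonneg_left hv.le (by positivity)
      exact pow_le_pow_left₀ hlogy0.le hlogy r
    refine le_trans ?_ (h1.trans ?_)
    · have h4 : ((Restricted b k D).card : ℝ) * (v / (k * Real.log b) ^ r) / (2 * b) ≤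
          (Restricted b k D).card * V a c (b ^ (k / L)) / (2 * b) := by
        apply div_le_div_of_nonneg_right _ (by positivity)
        exact mul_le_mul_of_nonneg_left h3 (Nat.cast_nonneg _)
      refine le_trans (le_of_eq ?_) h4
      rw [mul_pow]
      field_simp
    · apply Nat.cast_le.2
      apply card_le_card
      intro n hn
      unfold Start at hn
      rw [mem_filter] at hn ⊢
      refine ⟨hn.1, fun i => ?_⟩
      apply omega_le b k L C hb hL (by omega)
      · have hnb : n < b ^ k := by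
          have := hn.1
          unfold Restricted at this
          rw [mem_filter, mem_range] at this
          exact this.1
        obtain ⟨g1, g2⟩ := hsize i
        have ha0 := hac.1 i
        have hbk : (1 : ℤ) ≤ (b : ℤ) ^ (C * k) := by exact_mod_cast Nat.one_le_pow (C * k) b (by omega)
        have h5 : |a i * n + c i| ≤ ((b ^ ((C + 2) * k) : ℕ) : ℤ) := by
          have e1 : |a i * (n : ℤ)| ≤ (b : ℤ) ^ (C * k) * (b : ℤ) ^ k := by
            rw [abs_mul, abs_of_pos ha0, abs_of_nonneg (by positivity : (0 : ℤ) ≤ n)]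
            apply mul_le_mul g1 (by exact_mod_cast hnb.le) (by positivity) (by positivity)
          have hbk2 : (2 : ℤ) ≤ (b : ℤ) ^ k := by
            have : 2 ≤ b ^ k := hb.trans (Nat.le_self_pow (by omega) b)
            exact_mod_cast this
          have e2 : (b : ℤ) ^ (C * k) * (b : ℤ) ^ k + (b : ℤ) ^ (C * k) ≤
              (b : ℤ) ^ (C * k) * (b : ℤ) ^ k * (b : ℤ) ^ k := by
            have e3 : (b : ℤ) ^ (C * k) ≤ (b : ℤ) ^ (C * k) * (b : ℤ) ^ k :=
              le_mul_of_one_le_right (by positivity) (by linarith)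
            nlinarith
          calc |a i * n + c i| ≤ |a i * (n : ℤ)| + |c i| := abs_add_le _ _
            _ ≤ (b : ℤ) ^ (C * k) * (b : ℤ) ^ k * (b : ℤ) ^ k := by linarith
            _ = ((b ^ ((C + 2) * k) : ℕ) : ℤ) := by
                push_cast
                ring
        have h6 : ((a i * n + c i).natAbs : ℤ) ≤ ((b ^ ((C + 2) * k) : ℕ) : ℤ) := by
          rw [Int.natCast_natAbs]
          exact h5
        exact_mod_cast h6
      · intro p hp hpy
        exact hn.2 p hp hpy i
  · intro Λ ε hε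
    obtain ⟨L, k₀, T0, w, η', κ, hL, hη', hκ, hmain⟩ := law_win2 hb r Λ ε hε
    obtain ⟨cl, cu, hcl, hcu, hVz⟩ := Vz_bounds
    obtain ⟨v, hv, hVlow⟩ := V_lower_unif r
    refine ⟨L, hL, fun A C => ?_⟩
    have hVzA : 0 < Vz A := by
      have e : Vz A = ∏ p ∈ pz A, (1 - 1 / (p : ℝ)) := rfl
      rw [e]
      apply prod_pos
      intro p hp
      have hp1 : (1 : ℝ) < p := by exact_mod_cast (mem_pz.1 hp).2.one_lt
      rw [sub_pos, div_lt_one (by linarith)]
      exact hp1
    obtain ⟨y₁, hy₁, hsizes⟩ := sizes (cu / Vz A) κ (2 * η' / (r * r)) (by positivity) hκ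
      (by positivity) T0 (C + 2) r v (max Λ 1) hv (zero_le_one.trans (le_max_right _ _))
    refine ⟨max y₁ (w + A ^ 2 + 2 * A), k₀, ?_⟩
    intro k hk D hD y hy hyL a c hac hsz hne
    have hyy1 : y₁ ≤ y := by omega
    have hy3 : 3 ≤ y := by omega
    have hyA : A ^ 2 + 2 * A ≤ y := by omega
    obtain ⟨hs1, hs2⟩ := hsizes y hyy1
    have hVup : Vq (Ql a c) y ≤ cu / Vz A / Real.log y := by
      rw [V_eq]
      have h1 := V_up A y (by omega) a c hac ⟨0, by omega⟩ (hsz _).1
      have h2 := h1.trans (hVz y (by omega)).2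
      rw [div_right_comm, le_div_iff₀ hVzA]
      exact h2
    have hVlo : v / Real.log y ^ r ≤ Vq (Ql a c) y :=
      hVlow (Ql a c) (perB_Ql a c hac.2) (adm_V a c hac.2) y (by omega)
    have hnext : ∀ T m, Nw (Ql a c) y T m = next a c y T m := fun T m =>
      Pool.Agent.Q263.PL.Nw_eq _ _ _ _ _ (Sf_iff a c y)
    have hcoll : ∀ T : ℕ, κ ≤ T * Vq (Ql a c) y → T * Vq (Ql a c) y ≤ max Λ 1 → T0 ≤ T ∧
        ∀ t ∈ Icc 1 T, ((((pz y).filter (fun p : ℕ => T < p ∧ CoG (Ql a c) p t)).card : ℕ) : ℝ) ≤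
          η' * T := by
      intro T h1 h2
      have h1' : κ ≤ T * (cu / Vz A / Real.log y) :=
        h1.trans (mul_le_mul_of_nonneg_left hVup (Nat.cast_nonneg _))
      obtain ⟨g1, g2, g3, j, g4, g5⟩ := hs2 T h1'
      have hTy : T < y := g3 ((mul_le_mul_of_nonneg_left hVlo (Nat.cast_nonneg _)).trans h2)
      refine ⟨g1, fun t ht => ?_⟩
      have htT := (mem_Icc.1 ht).2
      have ht1 := (mem_Icc.1 ht).1
      have h3 := coll a c T y A C j (fun i => ⟨hac.1 i, (hsz i).1⟩) (fun i => (hsz i).2) g2 hTy.le hyA g4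
        t ht (hne t ht1 (by
          refine le_trans ?_ h2
          rw [V_eq]
          apply mul_le_mul_of_nonneg_right (by exact_mod_cast htT)
          rw [← V_eq]
          exact Vq_nonneg _ y))
      have h4 : ((((pz y).filter (fun p : ℕ => T < p ∧ CoG (Ql a c) p t)).card : ℕ) : ℝ) ≤
          ((r * r * j : ℕ) : ℝ) := by
        exact_mod_cast h3
      refine h4.trans ?_
      have hr0 : (0 : ℝ) < r := by exact_mod_cast hr
      push_cast at g5 ⊢
      have h5 : (r : ℝ) * r * (2 * j) ≤ r * r * (2 * η' / (r * r) * T) :=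
        mul_le_mul_of_nonneg_left g5 (by positivity)
      have h6 : (r : ℝ) * r * (2 * η' / (r * r) * T) = 2 * (η' * T) := by field_simp
      linarith
    intro T hT A'
    constructor
    · have h := hmain k (by omega) D (fun i => (hD i).1) (fun i => (hD i).2) y (fun _ _ => False) (Ql a c)
        hyL ⟨fun _ _ => Iff.rfl, fun p _ => by
          have : nuB (fun _ _ => False) p = 0 := by
            unfold nuB
            simp
          omega⟩ (perB_Ql a c hac.2) (adm_V a c hac.2) (by omega) (hVup.trans hs1)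
        (fun T' h1 h2 => ⟨(hcoll T' h1 h2).1, fun t ht => ⟨(hcoll T' h1 h2).2 t ht, by
          have : (pz y).filter (fun p : ℕ => T' < p ∧ CoP (fun _ _ => False) (Ql a c) p t) = ∅ := by
            rw [filter_eq_empty_iff]
            rintro p _ ⟨_, m, h3, _⟩
            exact h3
          rw [this, card_empty, Nat.cast_zero]
          positivity⟩⟩) T (by rw [V_eq]; exact hT) A'
      have hFx : Fx (fun _ _ => False) y (Pool.Agent.Q263.MD.Dig b k D) = Restricted b k D := by
        unfold Fx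
        rw [filter_true_of_mem]
        · rfl
        · intro n _
          unfold Sf
          intro p _ h
          exact h
      rw [hFx, V_eq] at h
      simp only [hnext] at h
      exact h
    · have h := hmain k (by omega) D (fun i => (hD i).1) (fun i => (hD i).2) y (Ql a c) (Ql a c) hyL
        (perB_Ql a c hac.2) (perB_Ql a c hac.2) (adm_V a c hac.2) (by omega) (hVup.trans hs1)
        (fun T' h1 h2 => ⟨(hcoll T' h1 h2).1, fun t ht => ⟨(hcoll T' h1 h2).2 t ht,
          (hcoll T' h1 h2).2 t ht⟩⟩) T (by rw [V_eq]; exact hT) A'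
      rw [Start_eq, V_eq] at h
      simp only [hnext] at h
      exact h

end Pool.Agent.Results.MP_d018b2_nt.UniformSystems
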